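import Pool.Prelude.Def_F_458e953d

/-!
# MP_f0c157_lc: proof systems with advice
-/

set_option autoImplicit false

namespace Pool.Agent.Lib.MP_f0c157_lc

open N68a2faeb N793a5b8e

/-- The first `n` bits of the infinite bit sequence `α`. -/
def firstBits (α : ℕ → Bool) (n : ℕ) : List Bool := (List.range n).map α

/-- The function `w ↦ f (u, w)`, where the advice `u` consists of the first `s n` bits of the
sequence `α`, `n` being the length of `w`. -/
def withAdvice (f : List Bool × List Bool → List Bool) (α : ℕ → Bool) (s : ℕ → ℕ)
    (w : List Bool) : List Bool :=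
  f (firstBits α (s w.length), w)

/-- The infinite bit sequences `α` for which there is a polynomial-time `f` such that the function
computed by `f` with the first `s n` bits of `α` as advice has range `L` and p-simulates every
(advice-free) proof system for `L`. -/
def HelpfulAdvice (L : DecisionProblem) (s : ℕ → ℕ) : Set (ℕ → Bool) :=
  {α | ∃ f : List Bool × List Bool → List Bool, IsPolyTime f ∧
    (∀ y, L y ↔ ∃ w, withAdvice f α s w = y) ∧
    ∀ Q, IsProofSystem L Q → PSimulates (withAdvice f α s) Q}

/-- The fair coin-tossing measure on infinite bit sequences. -/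
noncomputable def coin : MeasureTheory.Measure (ℕ → Bool) :=
  MeasureTheory.Measure.infinitePi fun _ : ℕ => (PMF.uniformOfFintype Bool).toMeasure

/-- The set `A` is `Σ⁰₂`: it is defined by an `∃∀` prefix over a polynomial-time predicate. -/
def IsSigmaTwo (A : Set (List Bool)) : Prop :=
  ∃ R : List Bool × (List Bool × List Bool) → Bool, IsPolyTime R ∧
    ∀ x, x ∈ A ↔ ∃ y, ∀ z, R (x, y, z)

/-- The functions `w ↦ G (x, w)` are proof systems for `L`, and `G` is computable in polynomial
time. -/
def IsUniformFamily (L : DecisionProblem) (G : List Bool × List Bool → List Bool) : Prop :=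
  IsPolyTime G ∧ ∀ x y, L y ↔ ∃ w, G (x, w) = y

end Pool.Agent.Lib.MP_f0c157_lc
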