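import Pool.Agent.Lib.MP_f0c157_lc.Tools
import Pool.Agent.Lib.MP_f0c157_lc.Defs

/-!
# MP_f0c157_lc: arbitrarily slowly growing advice
-/

set_option autoImplicit false

namespace Pool.Agent.Lib.MP_f0c157_lc

open Pool.Agent.PolyTime Pool.Agent.Lib.MP_d5150c_lc N487b59b3 N68a2faeb N793a5b8e Filter

/-- proofs of the universal system: a machine with its clock, an input, a number of steps -/
abbrev Arg : Type := (Prog × ℕ) × List Bool × ℕ

/-- the index of a clocked machine -/
def cidx (e : Prog × ℕ) : ℕ := bidx (bits e)

theorem cidx_inj {e e' : Prog × ℕ} (h : cidx e = cidx e') : e = e' := by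
  have h1 := bidx_inj _ _ h
  rw [← unbits_bits e, ← unbits_bits e', h1]

/-- the clocked machine outputs only members of `L` -/
def Sound (L : List Bool → Bool) (e : Prog × ℕ) : Prop :=
  ∀ (v : List Bool) (t : ℕ), v.length ^ e.2 + e.2 ≤ t → L (runT e.1 v t) = true

/-- the advice sequence -/
noncomputable def seqA (L : List Bool → Bool) (n : ℕ) : Bool :=
  letI := Classical.propDecidable (∃ e, cidx e = n ∧ Sound L e)
  decide (∃ e, cidx e = n ∧ Sound L e)

theorem seqA_iff (L : List Bool → Bool) (e : Prog × ℕ) : seqA L (cidx e) = true ↔ Sound L e := by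
  unfold seqA
  rw [@decide_eq_true_iff _ (Classical.propDecidable _)]
  constructor
  · rintro ⟨e', h, h'⟩
    rw [cidx_inj h] at h'
    exact h'
  · intro h
    exact ⟨e, rfl, h⟩

/-- the test of the universal system -/
def testA (u : List Bool) (a : Arg) : Bool :=
  u.getD (capVal u.length (bits a.1 ++ [true])) false && clock a.2.1.length a.1.2 a.2.2

theorem poly_testA : PolyFn (fun p : List Bool × Arg => testA p.1 p.2) := by
  have hu : PolyFn (fun p : List Bool × Arg => p.1) := PolyFn.fst
  have he : PolyFn (fun p : List Bool × Arg => p.2.1) := PolyFn.fst.comp PolyFn.snd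
  have hv : PolyFn (fun p : List Bool × Arg => p.2.2.1) :=
    PolyFn.fst.comp (PolyFn.snd.comp PolyFn.snd)
  have ht : PolyFn (fun p : List Bool × Arg => p.2.2.2) :=
    PolyFn.snd.comp (PolyFn.snd.comp PolyFn.snd)
  exact PolyFn.and (PolyFn.getD hu (PolyFn.capVal (PolyFn.length hu)
    (PolyFn.append (poly_bits he) (PolyFn.const [true]))) (PolyFn.const false))
    (poly_clock (PolyFn.length hv) (PolyFn.snd.comp he) ht)

/-- the universal system with advice `u`, based on the system `P` -/
def univA (P : List Bool → List Bool) (p : List Bool × List Bool) : List Bool :=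
  if p.2.headD false = true then
    (if testA p.1 (unbits Arg p.2.tail) = true then
      runT (unbits Arg p.2.tail).1.1 (unbits Arg p.2.tail).2.1 (unbits Arg p.2.tail).2.2 else P [])
  else P p.2.tail

theorem poly_univA {P : List Bool → List Bool} (hP : PolyFn P) : PolyFn (univA P) := by
  have hw : PolyFn (fun p : List Bool × List Bool => p.2.tail) := PolyFn.tail PolyFn.snd
  have ha : PolyFn (fun p : List Bool × List Bool => unbits Arg p.2.tail) := poly_unbits.comp hw
  refine PolyFn.ite ((PolyFn.headD PolyFn.snd (PolyFn.const false)).of_eq fun c => by simp) ?_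
    (hP.comp hw)
  refine PolyFn.ite ((poly_testA.comp (PolyFn.fst.pair ha)).of_eq fun c => by simp) ?_
    (hP.comp (PolyFn.const []))
  exact poly_runT (PolyFn.fst.comp (PolyFn.fst.comp ha)) (PolyFn.fst.comp (PolyFn.snd.comp ha))
    (PolyFn.snd.comp (PolyFn.snd.comp ha))

theorem firstBits_length (α : ℕ → Bool) (n : ℕ) : (firstBits α n).length = n := by
  simp [firstBits]

theorem firstBits_getD (α : ℕ → Bool) {n i : ℕ} (h : i < n) : (firstBits α n).getD i false = α i := by
  rw [List.getD_eq_getElem _ _ (by rw [firstBits_length]; exact h)]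
  simp [firstBits]

theorem testA_firstBits (L : List Bool → Bool) (n : ℕ) (a : Arg) :
    testA (firstBits (seqA L) n) a = true ↔
      cidx a.1 < n ∧ Sound L a.1 ∧ a.2.1.length ^ a.1.2 + a.1.2 ≤ a.2.2 := by
  unfold testA
  rw [Bool.and_eq_true, clock_iff, firstBits_length, capVal_eq]
  have h1 : binVal (bits a.1 ++ [true]) = cidx a.1 := rfl
  rw [h1]
  rcases Nat.lt_or_ge (cidx a.1) n with h | h
  · rw [min_eq_left h.le, firstBits_getD _ h, seqA_iff]
    tauto
  · rw [min_eq_right h, List.getD_eq_default _ _ (by rw [firstBits_length])]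
    constructor
    · rintro ⟨h', _⟩
      exact absurd h' (by simp)
    · rintro ⟨h', _⟩
      omega

theorem main_slow (L : DecisionProblem) (hL : ∃ P, IsProofSystem L P) :
    ∃ (f : List Bool × List Bool → List Bool) (α : ℕ → Bool), IsPolyTime f ∧
      ∀ s : ℕ → ℕ, Tendsto s atTop atTop →
        (∀ y, L y ↔ ∃ w, withAdvice f α s w = y) ∧
        ∀ Q, IsProofSystem L Q → PSimulates (withAdvice f α s) Q := by
  obtain ⟨P, hP, hPL⟩ := hL
  have hP' := polyFn_of_isPolyTime hP
  refine ⟨univA P, seqA L, isPolyTime_fun₂ (poly_univA hP'), fun s hs => ⟨?_, ?_⟩⟩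
  · intro y
    constructor
    · intro hy
      obtain ⟨x, hx⟩ := (hPL y).1 hy
      exact ⟨false :: x, hx⟩
    · rintro ⟨w, rfl⟩
      unfold withAdvice univA
      show L (ite _ _ _) = true
      split_ifs with h1 h2
      · obtain ⟨_, h3, h4⟩ := (testA_firstBits _ _ _).1 h2
        exact h3 _ _ h4
      · exact (hPL _).2 ⟨_, rfl⟩
      · exact (hPL _).2 ⟨_, rfl⟩
  · rintro Q ⟨hQ, hQL⟩
    obtain ⟨pr, k, hk⟩ := exists_code hQ
    obtain ⟨N, hN⟩ := eventually_atTop.1 (hs.eventually_gt_atTop (cidx (pr, k)))
    have hsound : Sound L (pr, k) := by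
      intro v t ht
      rw [hk v t ht]
      exact (hQL _).2 ⟨_, rfl⟩
    refine ⟨fun w => true :: bits (((pr, k), w, w.length ^ k + k + N) : Arg),
      isPolyTime_fun ?_, ?_⟩
    · refine PolyFn.cons (PolyFn.const true) (poly_bits ((PolyFn.const (pr, k)).pair
        (PolyFn.id.pair ?_)))
      exact PolyFn.add (PolyFn.add (PolyFn.pow (PolyFn.length PolyFn.id) k) (PolyFn.const k))
        (PolyFn.const N)
    · intro w
      set a : Arg := ((pr, k), w, w.length ^ k + k + N) with ha
      have hlen : N ≤ (true :: bits a).length := by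
        rw [List.length_cons, bits_length, ha]
        simp only [size_prod, size_nat]
        omega
      have htest : testA (firstBits (seqA L) (s (true :: bits a).length)) a = true := by
        rw [testA_firstBits]
        exact ⟨hN _ hlen, hsound, by show w.length ^ k + k ≤ w.length ^ k + k + N; omega⟩
      unfold withAdvice univA
      show ite _ _ _ = _
      rw [if_pos (by rfl)]
      have h1 : (true :: bits a).tail = bits a := rfl
      show (if testA (firstBits (seqA L) (s (true :: bits a).length))
        (unbits Arg (true :: bits a).tail) = true then _ else _) = _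
      rw [h1, unbits_bits, if_pos htest]
      exact hk _ _ (by show w.length ^ k + k ≤ w.length ^ k + k + N; omega)

end Pool.Agent.Lib.MP_f0c157_lc
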