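import Pool.Agent.Lib.MP_f0c157_lc.Enum
import Pool.Agent.Lib.MP_f0c157_lc.Slow

/-!
# MP_f0c157_lc: a function which p-simulates all proof systems and errs only on sparse scales
-/

set_option autoImplicit false

namespace Pool.Agent.Lib.MP_f0c157_lc

open Pool.Agent.PolyTime Pool.Agent.Lib.MP_d5150c_lc N487b59b3 N68a2faeb N793a5b8e Filter

/-! ### Decoding padded words -/

theorem decodeT_code_append (t : T) (l : List Bool) : decodeT (code t ++ l) = t := by
  unfold decodeT
  rw [List.reverse_append, List.foldl_append, foldl_stepT_code]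
  rfl

theorem unbits_append {α : Type} [Enc α] [Dec α] (a : α) (l : List Bool) :
    unbits α (bits a ++ l) = a := by
  unfold unbits bits
  rw [decodeT_code_append, dec_enc]

/-- all elements with a short code occur in the capped enumeration -/
theorem enumc_big (n : ℕ) : ∃ i, enumc [] n = exts [] i ∧ n ≤ 2 ^ i := by
  by_cases hn : n = 0
  · subst hn
    exact ⟨0, rfl, by simp⟩
  obtain ⟨j, hj⟩ : ∃ j, n ≤ 2 ^ j ∧ ∀ i < j, 2 ^ i < n := by
    have key : ∀ j, n ≤ 2 ^ j → ∃ j, n ≤ 2 ^ j ∧ ∀ i < j, 2 ^ i < n := by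
      intro j
      induction j with
      | zero => intro h; exact ⟨0, h, fun i hi => by omega⟩
      | succ j ih =>
        intro h
        rcases Nat.lt_or_ge (2 ^ j) n with h1 | h1
        · exact ⟨j + 1, h, fun i hi =>
            (Nat.pow_le_pow_right (by omega) (by omega : i ≤ j)).trans_lt h1⟩
        · exact ih h1
    exact key n Nat.lt_two_pow_self.le
  have h1 : ∀ m, m ≤ j → (extc n)^[m] [[]] = exts [] m := by
    intro m
    induction m with
    | zero => intro _; rfl
    | succ m ih =>
      intro hm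
      rw [Function.iterate_succ_apply', ih (by omega)]
      unfold extc
      rw [exts_length, if_pos (hj.2 m (by omega)), exts_succ]
  have h2 : ∀ m, (extc n)^[m] (exts [] j) = exts [] j := by
    intro m
    induction m with
    | zero => rfl
    | succ m ih =>
      rw [Function.iterate_succ_apply', ih]
      unfold extc
      rw [exts_length, if_neg (by omega)]
  refine ⟨j, ?_, hj.1⟩
  have h3 : j ≤ n := by
    by_contra hcon
    push Not at hcon
    have h4 := hj.2 n hcon
    have h5 : n < 2 ^ n := Nat.lt_two_pow_self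
    omega
  have h4 : enumc [] n = (extc n)^[(n - j) + j] [[]] := by
    unfold enumc
    exact congrArg (fun m => (extc n)^[m] [[]]) (by omega)
  rw [h4, Function.iterate_add_apply, h1 j le_rfl, h2]

theorem exists_mem_enumc {α : Type} [Enc α] [Dec α] (a : α) {n : ℕ} (hn : 2 ^ size a ≤ n) :
    ∃ q ∈ enumc [] n, unbits α q = a := by
  obtain ⟨i, hi, h⟩ := enumc_big n
  have h1 : size a ≤ i := by
    have h2 : 2 ^ size a ≤ 2 ^ i := hn.trans h
    exact (Nat.pow_le_pow_iff_right (by omega)).1 h2
  refine ⟨bits a ++ List.replicate (i - size a) false, ?_, unbits_append a _⟩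
  rw [hi, exts_mem]
  refine ⟨List.nil_prefix, ?_⟩
  rw [List.length_append, bits_length, List.length_replicate, List.length_nil]
  omega

/-! ### Refutations -/

/-- candidates for refutations: an input, a number of steps, a witness of non-membership -/
abbrev Ref : Type := List Bool × ℕ × List Bool

/-- the candidate `r` refutes the soundness of the clocked machine `e` -/
def refutes (R : List Bool × List Bool → Bool) (p : Polynomial ℕ) (e : Prog × ℕ) (r : Ref) : Bool :=
  clock r.1.length e.2 r.2.1 && (decide (r.2.2.length ≤ p.eval (runT e.1 r.1 r.2.1).length) &&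
    R (runT e.1 r.1 r.2.1, r.2.2))

theorem poly_refutes {R : List Bool × List Bool → Bool} (hR : PolyFn R) (p : Polynomial ℕ) :
    PolyFn (fun c : (Prog × ℕ) × Ref => refutes R p c.1 c.2) := by
  have he : PolyFn (fun c : (Prog × ℕ) × Ref => c.1) := PolyFn.fst
  have hv : PolyFn (fun c : (Prog × ℕ) × Ref => c.2.1) := PolyFn.fst.comp PolyFn.snd
  have ht : PolyFn (fun c : (Prog × ℕ) × Ref => c.2.2.1) :=
    PolyFn.fst.comp (PolyFn.snd.comp PolyFn.snd)
  have hz : PolyFn (fun c : (Prog × ℕ) × Ref => c.2.2.2) :=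
    PolyFn.snd.comp (PolyFn.snd.comp PolyFn.snd)
  have hy : PolyFn (fun c : (Prog × ℕ) × Ref => runT c.1.1 c.2.1 c.2.2.1) :=
    poly_runT (PolyFn.fst.comp he) hv ht
  exact PolyFn.and (poly_clock (PolyFn.length hv) (PolyFn.snd.comp he) ht)
    (PolyFn.and (PolyFn.decide_le (PolyFn.length hz) (poly_eval p (PolyFn.length hy)))
      (hR.comp (hy.pair hz)))

/-- the machine `e` is refuted by a candidate of logarithmic size -/
def refuted (R : List Bool × List Bool → Bool) (p : Polynomial ℕ) (e : Prog × ℕ) (n : ℕ) : Bool :=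
  (enumc [] n).any fun q => refutes R p e (unbits Ref q)

theorem poly_refuted {R : List Bool × List Bool → Bool} (hR : PolyFn R) (p : Polynomial ℕ)
    {γ : Type} [Enc γ] {e : γ → Prog × ℕ} {n : γ → ℕ} (he : PolyFn e) (hn : PolyFn n) :
    PolyFn (fun c => refuted R p (e c) (n c)) := by
  have h0 : PolyFn (fun c : γ × List Bool => (e c.1, unbits Ref c.2)) :=
    (he.comp PolyFn.fst).pair (poly_unbits.comp PolyFn.snd)
  have h1 := (poly_refutes hR p).comp h0
  dsimp only at h1
  have h2 : PolyFn (fun c => enumc [] (n c)) := poly_enumc [] hn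
  have h3 := PolyFn.any (p := fun (c : γ) (q : List Bool) => refutes R p (e c) (unbits Ref q)) h1 h2
  unfold refuted
  exact h3

/-- the test of the sparse-error system; `m` is the value of the bound -/
def testS (R : List Bool × List Bool → Bool) (p : Polynomial ℕ) (m n : ℕ) (a : Arg) : Bool :=
  decide (capVal m (bits a.1 ++ [true]) < m) &&
    (clock a.2.1.length a.1.2 a.2.2 && (decide ((bits a).length + 1 ≤ n) &&
      !(refuted R p a.1 n)))

theorem poly_testS {R : List Bool × List Bool → Bool} (hR : PolyFn R) (p : Polynomial ℕ) :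
    PolyFn (fun c : ℕ × ℕ × Arg => testS R p c.1 c.2.1 c.2.2) := by
  have hm : PolyFn (fun c : ℕ × ℕ × Arg => c.1) := PolyFn.fst
  have hn : PolyFn (fun c : ℕ × ℕ × Arg => c.2.1) := PolyFn.fst.comp PolyFn.snd
  have ha : PolyFn (fun c : ℕ × ℕ × Arg => c.2.2) := PolyFn.snd.comp PolyFn.snd
  have he : PolyFn (fun c : ℕ × ℕ × Arg => c.2.2.1) := PolyFn.fst.comp ha
  have hv : PolyFn (fun c : ℕ × ℕ × Arg => c.2.2.2.1) := PolyFn.fst.comp (PolyFn.snd.comp ha)
  have ht : PolyFn (fun c : ℕ × ℕ × Arg => c.2.2.2.2) := PolyFn.snd.comp (PolyFn.snd.comp ha)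
  have h1 : PolyFn (fun c : ℕ × ℕ × Arg => decide (capVal c.1 (bits c.2.2.1 ++ [true]) < c.1)) :=
    PolyFn.decide_lt (PolyFn.capVal hm (PolyFn.append (poly_bits he) (PolyFn.const [true]))) hm
  have h2 : PolyFn (fun c : ℕ × ℕ × Arg => clock c.2.2.2.1.length c.2.2.1.2 c.2.2.2.2) :=
    poly_clock (PolyFn.length hv) (PolyFn.snd.comp he) ht
  have h3 : PolyFn (fun c : ℕ × ℕ × Arg => !(refuted R p c.2.2.1 c.2.1)) :=
    PolyFn.not (poly_refuted hR p he hn)
  have h5 : PolyFn (fun c : ℕ × ℕ × Arg => decide ((bits c.2.2).length + 1 ≤ c.2.1)) :=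
    PolyFn.decide_le (PolyFn.succ (PolyFn.length (poly_bits ha))) hn
  have h4 := PolyFn.and h1 (PolyFn.and h2 (PolyFn.and h5 h3))
  unfold testS
  exact h4

/-- the sparse-error system -/
def sparseSys (R : List Bool × List Bool → Bool) (p : Polynomial ℕ) (s : ℕ → ℕ)
    (P : List Bool → List Bool) (w : List Bool) : List Bool :=
  if w.headD false = true then
    (if testS R p (s w.length) w.length (unbits Arg w.tail) = true then
      runT (unbits Arg w.tail).1.1 (unbits Arg w.tail).2.1 (unbits Arg w.tail).2.2 else P [])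
  else P w.tail

theorem poly_sparseSys {R : List Bool × List Bool → Bool} (hR : PolyFn R) (p : Polynomial ℕ)
    {s : ℕ → ℕ} (hs : PolyFn fun w : List Bool => List.replicate (s w.length) true)
    {P : List Bool → List Bool} (hP : PolyFn P) : PolyFn (sparseSys R p s P) := by
  have hw : PolyFn (fun w : List Bool => w.tail) := PolyFn.tail PolyFn.id
  have ha : PolyFn (fun w : List Bool => unbits Arg w.tail) := poly_unbits.comp hw
  have hsw : PolyFn (fun w : List Bool => s w.length) :=
    (PolyFn.length hs).of_eq fun c => by simp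
  have h0 : PolyFn (fun w : List Bool => (s w.length, w.length, unbits Arg w.tail)) :=
    hsw.pair ((PolyFn.length PolyFn.id).pair ha)
  have htest := (poly_testS hR p).comp h0
  dsimp only at htest
  have htest' : PolyFn (fun w : List Bool =>
      decide (testS R p (s w.length) w.length (unbits Arg w.tail) = true)) :=
    htest.of_eq fun c => by rw [Bool.decide_eq_true]
  have hhead : PolyFn (fun w : List Bool => decide (w.headD false = true)) :=
    (PolyFn.headD PolyFn.id (PolyFn.const false)).of_eq fun c => by rw [Bool.decide_eq_true]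
  have hrun : PolyFn (fun w : List Bool =>
      runT (unbits Arg w.tail).1.1 (unbits Arg w.tail).2.1 (unbits Arg w.tail).2.2) :=
    poly_runT (PolyFn.fst.comp (PolyFn.fst.comp ha)) (PolyFn.fst.comp (PolyFn.snd.comp ha))
      (PolyFn.snd.comp (PolyFn.snd.comp ha))
  have h1 := PolyFn.ite htest' hrun (hP.comp (PolyFn.const ([] : List Bool)))
  have h2 := PolyFn.ite hhead h1 (hP.comp hw)
  unfold sparseSys
  exact h2

/-! ### Correctness -/

/-- a wrong output of `e` occurs in a proof of length `n` -/
def WrongAt (L : List Bool → Bool) (e : Prog × ℕ) (n : ℕ) : Prop :=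
  ∃ (v : List Bool) (t : ℕ), size ((e, v, t) : Arg) + 1 = n ∧ v.length ^ e.2 + e.2 ≤ t ∧
    L (runT e.1 v t) = false

section

variable {L : List Bool → Bool} {R : List Bool × List Bool → Bool} {p : Polynomial ℕ}
  (hR : ∀ y, L y = false ↔ ∃ z, z.length ≤ p.eval y.length ∧ R (y, z) = true)

include hR in
theorem refutes_sound {e : Prog × ℕ} {r : Ref} (h : refutes R p e r = true) :
    ¬ Sound L e := by
  unfold refutes at h
  rw [Bool.and_eq_true, Bool.and_eq_true, clock_iff, decide_eq_true_iff] at h
  obtain ⟨h1, h2, h3⟩ := h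
  intro hs
  have h4 := hs _ _ h1
  rw [(hR _).2 ⟨_, h2, h3⟩] at h4
  exact absurd h4 (by simp)

include hR in
theorem refuted_sound {e : Prog × ℕ} {n : ℕ} (h : refuted R p e n = true) : ¬ Sound L e := by
  unfold refuted at h
  rw [List.any_eq_true] at h
  obtain ⟨q, _, hq⟩ := h
  exact refutes_sound hR hq

include hR in
/-- a wrong output is refuted by a witness of polynomial size -/
theorem exists_bound : ∃ c : ℕ, ∀ (e : Prog × ℕ) (n N : ℕ), WrongAt L e n → 2 ^ (n ^ c + c) ≤ N →
    refuted R p e N = true := by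
  have hp : PolyFn (fun a : Arg => runT a.1.1 a.2.1 a.2.2) :=
    poly_runT (PolyFn.fst.comp PolyFn.fst) (PolyFn.fst.comp PolyFn.snd)
      (PolyFn.snd.comp PolyFn.snd)
  obtain ⟨g, hg, hgb⟩ := hp.size_le
  have hQ : PB fun n => n + (4 * p.eval (g n) + 1) :=
    PB.id.add (((PB.const 4).mul (PB.comp (f := fun n => p.eval n) ⟨fun a b h => poly_mono p h,
      p, fun n => le_rfl⟩ hg)).add (PB.const 1))
  obtain ⟨hQm, Q, hQb⟩ := hQ
  obtain ⟨c, hc⟩ := exists_pow_bound Q
  refine ⟨c, ?_⟩
  rintro e n N ⟨v, t, hn, hcl, hL⟩ hN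
  obtain ⟨z, hz1, hz2⟩ := (hR _).1 hL
  have hr : refutes R p e (v, t, z) = true := by
    unfold refutes
    rw [Bool.and_eq_true, Bool.and_eq_true, clock_iff, decide_eq_true_iff]
    exact ⟨hcl, hz1, hz2⟩
  have hsz : size ((v, t, z) : Ref) ≤ n ^ c + c := by
    refine le_trans ?_ ((hQb n).trans (hc n))
    have h1 := size_bits_le z
    have h2 : p.eval (runT e.1 v t).length ≤ p.eval (g n) := by
      apply poly_mono
      refine (length_le_size _).trans ((hgb (e, v, t)).trans (hg.mono ?_))
      omega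
    have h3 : size ((e, v, t) : Arg) = size e + size ((v, t) : List Bool × ℕ) + 1 :=
      size_prod _ _
    have h3' : size ((v, t) : List Bool × ℕ) = size v + size t + 1 := size_prod _ _
    have h4 : size ((v, t, z) : Ref) = size v + (size t + size z + 1) + 1 := by
      rw [size_prod, size_prod]
    have h5 := size_pos e
    rw [h4]
    beta_reduce
    omega
  obtain ⟨q, hq1, hq2⟩ := exists_mem_enumc ((v, t, z) : Ref) (n := N)
    ((Nat.pow_le_pow_right (by omega) hsz).trans hN)
  unfold refuted
  rw [List.any_eq_true]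
  exact ⟨q, hq1, by rw [hq2]; exact hr⟩

theorem testS_iff {m n : ℕ} {a : Arg} : testS R p m n a = true ↔
    cidx a.1 < m ∧ a.2.1.length ^ a.1.2 + a.1.2 ≤ a.2.2 ∧ size a + 1 ≤ n ∧
      refuted R p a.1 n = false := by
  unfold testS
  rw [Bool.and_eq_true, Bool.and_eq_true, Bool.and_eq_true, clock_iff, decide_eq_true_iff,
    decide_eq_true_iff, capVal_eq, bits_length]
  have h1 : binVal (bits a.1 ++ [true]) = cidx a.1 := rfl
  rw [h1]
  constructor
  · rintro ⟨h2, h3, h4, h5⟩
    refine ⟨by omega, h3, h4, by simpa using h5⟩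
  · rintro ⟨h2, h3, h4, h5⟩
    exact ⟨by omega, h3, h4, by simpa using h5⟩

end

theorem main_sparse (L : DecisionProblem) (hL : L ∈ coNP) (hP : ∃ P, IsProofSystem L P) :
    ∃ c : ℕ, ∀ s : ℕ → ℕ, Monotone s → Tendsto s atTop atTop →
      IsPolyTime (fun w : List Bool => List.replicate (s w.length) true) →
      ∃ f : List Bool → List Bool, IsPolyTime f ∧ (∀ y, L y → ∃ w, f w = y) ∧
        (∀ Q, IsProofSystem L Q → PSimulates f Q) ∧
        ∀ N, ∃ M : Finset ℕ, M.card ≤ s N ∧ ∀ w, w.length ≤ N → ¬ L (f w) →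
          ∃ m ∈ M, m ≤ w.length ∧ w.length ≤ 2 ^ (m ^ c + c) := by
  obtain ⟨p, R, hRp, hR'⟩ := hL
  have hR : ∀ y, L y = false ↔ ∃ z, z.length ≤ p.eval y.length ∧ R (y, z) = true := by
    intro y
    have h1 : (Lᶜ y : Prop) ↔ L y = false := by
      show ((Lᶜ y) = true) ↔ _
      rw [Pi.compl_apply]
      cases L y <;> simp
    rw [← h1]
    exact hR' y
  have hRp' := polyFn_of_isPolyTime_pred hRp
  obtain ⟨P, hP, hPL⟩ := hP
  have hP' := polyFn_of_isPolyTime hP
  obtain ⟨c, hc⟩ := exists_bound hR
  refine ⟨c, fun s hmono hs hsp => ?_⟩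
  have hsp' := polyFn_of_isPolyTime hsp
  refine ⟨sparseSys R p s P, isPolyTime_fun (poly_sparseSys hRp' p hsp' hP'), ?_, ?_, ?_⟩
  · intro y hy
    obtain ⟨x, hx⟩ := (hPL y).1 hy
    exact ⟨false :: x, hx⟩
  · rintro Q ⟨hQ, hQL⟩
    obtain ⟨pr, k, hk⟩ := exists_code hQ
    obtain ⟨N, hN⟩ := eventually_atTop.1 (hs.eventually_gt_atTop (cidx (pr, k)))
    have hsound : Sound L (pr, k) := by
      intro v t ht
      rw [hk v t ht]
      exact (hQL _).2 ⟨_, rfl⟩
    refine ⟨fun w => true :: bits (((pr, k), w, w.length ^ k + k + N) : Arg),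
      isPolyTime_fun ?_, ?_⟩
    · refine PolyFn.cons (PolyFn.const true) (poly_bits ((PolyFn.const (pr, k)).pair
        (PolyFn.id.pair ?_)))
      exact PolyFn.add (PolyFn.add (PolyFn.pow (PolyFn.length PolyFn.id) k) (PolyFn.const k))
        (PolyFn.const N)
    · intro w
      set a : Arg := ((pr, k), w, w.length ^ k + k + N) with ha
      have hlen : N ≤ (true :: bits a).length := by
        rw [List.length_cons, bits_length, ha]
        simp only [size_prod, size_nat]
        omega
      have htest : testS R p (s (true :: bits a).length) (true :: bits a).length a = true := by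
        rw [testS_iff]
        refine ⟨hN _ hlen, by show w.length ^ k + k ≤ w.length ^ k + k + N; omega, ?_, ?_⟩
        · rw [List.length_cons, bits_length]
        · by_contra hcon
          rw [Bool.not_eq_false] at hcon
          exact refuted_sound hR hcon hsound
      unfold sparseSys
      rw [if_pos (by rfl)]
      have h1 : (true :: bits a).tail = bits a := rfl
      rw [h1, unbits_bits, if_pos htest]
      exact hk _ _ (by show w.length ^ k + k ≤ w.length ^ k + k + N; omega)
  · intro N
    classical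
    let n0 : ℕ → ℕ := fun i => sInf {n | ∃ e, cidx e = i ∧ WrongAt L e n}
    refine ⟨(Finset.range (s N)).image n0, (Finset.card_image_le).trans (by simp), ?_⟩
    intro w hw hLw
    have hLw' : L (sparseSys R p s P w) = false := by
      simpa using hLw
    unfold sparseSys at hLw'
    split_ifs at hLw' with h1 h2
    · set a := unbits Arg w.tail with ha
      obtain ⟨h3, h4, h5, h6⟩ := testS_iff.1 h2
      have hwrong : WrongAt L a.1 (size a + 1) := ⟨a.2.1, a.2.2, rfl, h4, hLw'⟩
      have hne : {n | ∃ e, cidx e = cidx a.1 ∧ WrongAt L e n}.Nonempty :=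
        ⟨_, a.1, rfl, hwrong⟩
      obtain ⟨e, he, hmem⟩ := Nat.sInf_mem hne
      have he' := cidx_inj he
      subst he'
      refine ⟨n0 (cidx a.1), Finset.mem_image_of_mem _ (Finset.mem_range.2
        (h3.trans_le (hmono hw))), ?_, ?_⟩
      · have h8 : size a + 1 ∈ {n | ∃ e, cidx e = cidx a.1 ∧ WrongAt L e n} :=
          ⟨a.1, rfl, hwrong⟩
        exact (Nat.sInf_le h8).trans h5
      · by_contra hcon
        push Not at hcon
        have h7 := hc _ _ _ hmem hcon.le
        rw [h6] at h7
        exact absurd h7 (by simp)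
    · rw [(hPL _).2 ⟨_, rfl⟩] at hLw'
      exact absurd hLw' (by simp)
    · rw [(hPL _).2 ⟨_, rfl⟩] at hLw'
      exact absurd hLw' (by simp)

end Pool.Agent.Lib.MP_f0c157_lc
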