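import Pool.Agent.Lib.MP_d5150c_lc.OneBit

/-!
# MP_f0c157_lc: polynomial-time functions on bit strings and their codes
-/

set_option autoImplicit false

namespace Pool.Agent.Lib.MP_f0c157_lc

open Pool.Agent.PolyTime Pool.Agent.Lib.MP_d5150c_lc N487b59b3 N68a2faeb N793a5b8e

/-! ### Bridges -/

/-- a polynomial-time function on bit strings is a `PolyFn` -/
theorem polyFn_of_isPolyTime {f : List Bool → List Bool} (h : IsPolyTime f) : PolyFn f := by
  obtain ⟨F, hF, hFf⟩ := exists_polyFn h
  have h1 : PolyFn (fun w : List Bool => decL (F (encL w))) :=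
    poly_decL (hF.comp (poly_encL PolyFn.id))
  refine h1.of_eq ?_
  intro w
  have := hFf w
  rw [bitEncode_list, bitEncode_list] at this
  rw [this, decL_encL]

/-- a polynomial-time function on pairs of bit strings is a `PolyFn` -/
theorem polyFn_of_isPolyTime₂ {f : List Bool × List Bool → List Bool} (h : IsPolyTime f) :
    PolyFn f := by
  obtain ⟨F, hF, hFf⟩ := exists_polyFn h
  have h1 : PolyFn (fun p : List Bool × List Bool => decL (F (encP (p.1, p.2)))) :=
    poly_decL (hF.comp (poly_encP PolyFn.fst PolyFn.snd))
  refine h1.of_eq ?_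
  intro p
  have := hFf p
  rw [bitEncode_pair, bitEncode_list] at this
  rw [this, decL_encL]

/-- the converse for functions on pairs of bit strings -/
theorem isPolyTime_fun₂ {f : List Bool × List Bool → List Bool} (h : PolyFn f) :
    IsPolyTime f := by
  have h1 : PolyFn (fun l : List Bool => encL (f (decP l))) :=
    poly_encL (h.comp (poly_decP PolyFn.id))
  refine PolyFn.toTM2List h1 (bitEncode : List Bool × List Bool → List Bool)
    (bitEncode : List Bool → List Bool) f ?_
  intro x
  rw [bitEncode_pair, bitEncode_list, decP_encP]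

theorem isPolyTime_iff {f : List Bool → List Bool} : IsPolyTime f ↔ PolyFn f :=
  ⟨polyFn_of_isPolyTime, isPolyTime_fun⟩

theorem isPolyTime_iff₂ {f : List Bool × List Bool → List Bool} : IsPolyTime f ↔ PolyFn f :=
  ⟨polyFn_of_isPolyTime₂, isPolyTime_fun₂⟩

/-! ### Polynomial bounds -/

theorem exists_pow_bound (p : Polynomial ℕ) : ∃ k, ∀ n, p.eval n ≤ n ^ k + k := by
  induction p using Polynomial.induction_on' with
  | add p q hp hq =>
    obtain ⟨a, ha⟩ := hp
    obtain ⟨b, hb⟩ := hq
    refine ⟨a + b + 2, fun n => ?_⟩
    rw [Polynomial.eval_add]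
    rcases Nat.lt_or_ge n 2 with hn | hn
    · have h1 : n ^ a ≤ 1 := by
        interval_cases n
        · cases a <;> simp
        · simp
      have h2 : n ^ b ≤ 1 := by
        interval_cases n
        · cases b <;> simp
        · simp
      have := ha n
      have := hb n
      omega
    · have h1 : n ^ a ≤ n ^ (a + b + 1) := Nat.pow_le_pow_right (by omega) (by omega)
      have h2 : n ^ b ≤ n ^ (a + b + 1) := Nat.pow_le_pow_right (by omega) (by omega)
      have h3 : n ^ (a + b + 2) = n ^ (a + b + 1) * n := pow_succ _ _
      have h4 : n ^ (a + b + 1) * 2 ≤ n ^ (a + b + 1) * n := Nat.mul_le_mul_left _ hn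
      have := ha n
      have := hb n
      omega
  | monomial k c =>
    refine ⟨k + c, fun n => ?_⟩
    rw [Polynomial.eval_monomial]
    rcases Nat.lt_or_ge n 2 with hn | hn
    · have h1 : n ^ k ≤ 1 := by
        interval_cases n
        · cases k <;> simp
        · simp
      calc c * n ^ k ≤ c * 1 := Nat.mul_le_mul_left _ h1
        _ ≤ n ^ (k + c) + (k + c) := by omega
    · have h1 : c ≤ n ^ c := (Nat.lt_pow_self (by omega : 1 < n)).le
      calc c * n ^ k ≤ n ^ c * n ^ k := Nat.mul_le_mul_right _ h1
        _ = n ^ (k + c) := by rw [← pow_add, Nat.add_comm]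
        _ ≤ _ := by omega

/-! ### Codes -/

/-- run the machine with code `pr` on the input `w` for `t` steps -/
def runT (pr : Prog) (w : List Bool) (t : ℕ) : List Bool := decL (U pr (encL w) t)

theorem poly_runT {γ : Type} [Enc γ] {a : γ → Prog} {b : γ → List Bool} {n : γ → ℕ}
    (ha : PolyFn a) (hb : PolyFn b) (hn : PolyFn n) : PolyFn (fun c => runT (a c) (b c) (n c)) :=
  poly_decL (poly_U'' ha (poly_encL hb) hn)

/-- every polynomial-time function has a code and a clock -/
theorem exists_code {f : List Bool → List Bool} (h : IsPolyTime f) :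
    ∃ (pr : Prog) (k : ℕ), ∀ w t, w.length ^ k + k ≤ t → runT pr w t = f w := by
  obtain ⟨h⟩ := h
  obtain ⟨pr, B, hU⟩ := U_correct h.toTM2ComputableInTime
  obtain ⟨k, hk⟩ := exists_pow_bound (h.time.comp (3 * Polynomial.X) * Polynomial.C B)
  refine ⟨pr, k, fun w t ht => ?_⟩
  have h1 : (bitEncode w : List Bool) = encL w := bitEncode_list w
  have h2 := hU w t (by
    refine le_trans ?_ ht
    refine le_trans (le_of_eq ?_) (hk w.length)
    rw [show (N487b59b3.toEncoding.encode w : List Bool) = encL w from h1, encL_length]
    rw [Polynomial.eval_mul, Polynomial.eval_comp, Polynomial.eval_C, Polynomial.eval_mul,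
      Polynomial.eval_X, Polynomial.eval_ofNat]
    rfl)
  have h3 : (N487b59b3.toEncoding.encode w : List Bool) = encL w := h1
  have h4 : (N487b59b3.toEncoding.encode (f w) : List Bool) = encL (f w) := bitEncode_list (f w)
  rw [h3, h4] at h2
  unfold runT
  rw [h2, decL_encL]

theorem countable_isPolyTime : {f : List Bool → List Bool | IsPolyTime f}.Countable := by
  have : {f : List Bool → List Bool | IsPolyTime f} ⊆
      Set.range (fun e : Prog × ℕ => fun w => runT e.1 w (w.length ^ e.2 + e.2)) := by
    intro f hf
    obtain ⟨pr, k, hk⟩ := exists_code hf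
    exact ⟨(pr, k), funext fun w => hk w _ le_rfl⟩
  exact (Set.countable_range _).mono this

theorem countable_isPolyTime₂ : {f : List Bool × List Bool → List Bool | IsPolyTime f}.Countable := by
  have : {f : List Bool × List Bool → List Bool | IsPolyTime f} ⊆
      (fun g : List Bool → List Bool => fun p : List Bool × List Bool => g (encP p)) ''
        {f : List Bool → List Bool | IsPolyTime f} := by
    intro f hf
    refine ⟨fun w => f (decP w), ?_, ?_⟩
    · exact isPolyTime_fun ((polyFn_of_isPolyTime₂ hf).comp (poly_decP PolyFn.id))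
    · funext p
      show f (decP (encP p)) = f p
      rw [decP_encP]
  exact (countable_isPolyTime.image _).mono this

end Pool.Agent.Lib.MP_f0c157_lc
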