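import Pool.Agent.Lib.MP_f0c157_lc.Defs

/-!
# MP_f0c157_lc: cylinders, measure and category in Cantor space
-/

set_option autoImplicit false

namespace Pool.Agent.Lib.MP_f0c157_lc

open MeasureTheory Set

instance : IsProbabilityMeasure coin := by unfold coin; infer_instance

/-! ### Extensions of a word -/

/-- extend all words by one bit -/
def ext1 (E : List (List Bool)) : List (List Bool) := E.flatMap fun u => [u ++ [false], u ++ [true]]

/-- all extensions of `σ` by `j` bits -/
def exts (σ : List Bool) (j : ℕ) : List (List Bool) := ext1^[j] [σ]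

theorem exts_zero (σ : List Bool) : exts σ 0 = [σ] := rfl

theorem exts_succ (σ : List Bool) (j : ℕ) : exts σ (j + 1) = ext1 (exts σ j) := by
  unfold exts
  rw [Function.iterate_succ_apply']

theorem ext1_length (E : List (List Bool)) : (ext1 E).length = 2 * E.length := by
  unfold ext1
  induction E with
  | nil => rfl
  | cons u E ih =>
    rw [List.flatMap_cons, List.length_append, ih, List.length_cons]
    simp
    omega

theorem exts_length (σ : List Bool) (j : ℕ) : (exts σ j).length = 2 ^ j := by
  induction j with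
  | zero => rfl
  | succ j ih => rw [exts_succ, ext1_length, ih, pow_succ]; ring

theorem mem_ext1 {E : List (List Bool)} {u : List Bool} :
    u ∈ ext1 E ↔ ∃ v ∈ E, ∃ b : Bool, u = v ++ [b] := by
  unfold ext1
  rw [List.mem_flatMap]
  constructor
  · rintro ⟨v, hv, hu⟩
    simp only [List.mem_cons, List.not_mem_nil, or_false] at hu
    rcases hu with rfl | rfl
    · exact ⟨v, hv, false, rfl⟩
    · exact ⟨v, hv, true, rfl⟩
  · rintro ⟨v, hv, b, rfl⟩
    refine ⟨v, hv, ?_⟩
    cases b <;> simp

theorem exts_mem {σ : List Bool} {j : ℕ} {u : List Bool} :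
    u ∈ exts σ j ↔ σ <+: u ∧ u.length = σ.length + j := by
  induction j generalizing u with
  | zero =>
    rw [exts_zero, List.mem_singleton]
    constructor
    · rintro rfl; exact ⟨List.prefix_rfl, rfl⟩
    · rintro ⟨h1, h2⟩; exact (h1.eq_of_length (by omega)).symm
  | succ j ih =>
    rw [exts_succ, mem_ext1]
    constructor
    · rintro ⟨v, hv, b, rfl⟩
      obtain ⟨h1, h2⟩ := ih.1 hv
      exact ⟨h1.trans (List.prefix_append _ _), by simp; omega⟩
    · rintro ⟨h1, h2⟩
      have hne : u ≠ [] := by
        rintro rfl; simp at h2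
      refine ⟨u.dropLast, ih.2 ⟨?_, by rw [List.length_dropLast]; omega⟩, u.getLast hne,
        (List.dropLast_append_getLast hne).symm⟩
      obtain ⟨t, rfl⟩ := h1
      have ht : t ≠ [] := by
        rintro rfl; simp at h2
      rw [List.dropLast_append_of_ne_nil ht]
      exact List.prefix_append _ _

theorem exts_nodup (σ : List Bool) (j : ℕ) : (exts σ j).Nodup := by
  induction j with
  | zero => exact List.nodup_singleton _
  | succ j ih =>
    rw [exts_succ]
    unfold ext1
    rw [List.nodup_flatMap]
    refine ⟨fun u _ => by simp, ?_⟩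
    refine ih.imp ?_
    intro u v huv
    show List.Disjoint [u ++ [false], u ++ [true]] [v ++ [false], v ++ [true]]
    intro x hx hy
    simp only [List.mem_cons, List.not_mem_nil, or_false] at hx hy
    apply huv
    have : x.dropLast = u := by rcases hx with rfl | rfl <;> simp
    rw [← this]
    rcases hy with rfl | rfl <;> simp

/-! ### Cylinders -/

/-- the sequences starting with `σ` -/
def cyl (σ : List Bool) : Set (ℕ → Bool) := {α | firstBits α σ.length = σ}

theorem fb_length (α : ℕ → Bool) (n : ℕ) : (firstBits α n).length = n := by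
  simp [firstBits]

theorem fb_take (α : ℕ → Bool) {m n : ℕ} (h : m ≤ n) : (firstBits α n).take m = firstBits α m := by
  unfold firstBits
  rw [← List.map_take, List.take_range, min_eq_left h]

theorem mem_cyl {α : ℕ → Bool} {σ : List Bool} : α ∈ cyl σ ↔ firstBits α σ.length = σ := Iff.rfl

theorem mem_cyl_fb (α : ℕ → Bool) (n : ℕ) : α ∈ cyl (firstBits α n) := by
  rw [mem_cyl, fb_length]

theorem cyl_anti {σ τ : List Bool} (h : σ <+: τ) : cyl τ ⊆ cyl σ := by
  intro α hα
  rw [mem_cyl] at hα ⊢
  have h1 := List.prefix_iff_eq_take.1 h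
  rw [← fb_take α h.length_le, hα]
  exact h1.symm

theorem prefix_of_cyl {α : ℕ → Bool} {σ : List Bool} (h : α ∈ cyl σ) {n : ℕ}
    (hn : σ.length ≤ n) : σ <+: firstBits α n := by
  rw [mem_cyl] at h
  rw [← fb_take α hn] at h
  rw [← h]
  exact List.take_prefix _ _

theorem cyl_eq_exts (σ : List Bool) (j : ℕ) : cyl σ = ⋃ u ∈ (exts σ j).toFinset, cyl u := by
  ext α
  simp only [mem_iUnion, List.mem_toFinset, exists_prop]
  constructor
  · intro h
    refine ⟨firstBits α (σ.length + j), exts_mem.2 ⟨prefix_of_cyl h (by omega), ?_⟩,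
      mem_cyl_fb _ _⟩
    rw [fb_length]
  · rintro ⟨u, hu, h⟩
    exact cyl_anti (exts_mem.1 hu).1 h

theorem cyl_eq_biInter (σ : List Bool) :
    cyl σ = ⋂ i ∈ Finset.range σ.length, {α : ℕ → Bool | α i = σ.getD i false} := by
  ext α
  simp only [mem_iInter, Finset.mem_range, mem_ofPred_eq]
  rw [mem_cyl]
  constructor
  · intro h i hi
    conv_rhs => rw [← h]
    rw [List.getD_eq_getElem _ _ (by rw [fb_length]; exact hi)]
    simp [firstBits]
  · intro h
    apply List.ext_getElem
    · rw [fb_length]
    · intro i h1 h2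
      have := h i h2
      rw [List.getD_eq_getElem _ _ h2] at this
      simp [firstBits, this]

theorem isClopen_cyl (σ : List Bool) : IsClopen (cyl σ) := by
  rw [cyl_eq_biInter]
  refine isClopen_biInter_finset fun i _ => ?_
  exact (isClopen_discrete {b : Bool | b = σ.getD i false}).preimage (continuous_apply i)

theorem measurableSet_cyl (σ : List Bool) : MeasurableSet (cyl σ) :=
  (isClopen_cyl σ).isOpen.measurableSet

theorem exists_cyl_subset {O : Set (ℕ → Bool)} (hO : IsOpen O) {α : ℕ → Bool} (hα : α ∈ O) :
    ∃ n, ∀ m, n ≤ m → cyl (firstBits α m) ⊆ O := by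
  rw [isOpen_pi_iff] at hO
  obtain ⟨I, u, hu, hI⟩ := hO α hα
  refine ⟨I.sup id + 1, fun m hm β hβ => hI ?_⟩
  intro i hi
  have h1 : i ≤ I.sup id := Finset.le_sup (f := id) hi
  have h2 : β i = α i := by
    rw [cyl_eq_biInter] at hβ
    simp only [mem_iInter, Finset.mem_range, mem_ofPred_eq] at hβ
    have := hβ i (by rw [fb_length]; omega)
    rw [this, List.getD_eq_getElem _ _ (by rw [fb_length]; omega)]
    simp [firstBits]
  rw [h2]
  exact (hu i hi).2

theorem coin_cyl (σ : List Bool) : coin (cyl σ) = (2⁻¹ : ENNReal) ^ σ.length := by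
  have h1 : cyl σ = Set.pi (Finset.range σ.length) fun i => {b : Bool | b = σ.getD i false} := by
    rw [cyl_eq_biInter]
    ext α
    simp [Set.mem_pi]
  rw [h1, coin, Measure.infinitePi_pi]
  · rw [Finset.prod_eq_pow_card (b := (2⁻¹ : ENNReal)), Finset.card_range]
    intro i _
    rw [show {b : Bool | b = σ.getD i false} = {σ.getD i false} from rfl,
      PMF.toMeasure_apply_singleton _ _ (measurableSet_singleton _)]
    simp
  · intro i _
    exact measurableSet_singleton _

end Pool.Agent.Lib.MP_f0c157_lc
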