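import Pool.Agent.Lib.MP_f0c157_lc.Cantor

/-!
# MP_f0c157_lc: sets of positive measure and non-meagre sets in Cantor space
-/

set_option autoImplicit false

namespace Pool.Agent.Lib.MP_f0c157_lc

open MeasureTheory Set

/-! ### Measure -/

theorem coin_biUnion_le (σ : List Bool) (j : ℕ) (S : Finset (List Bool))
    (hS : ∀ u ∈ S, u ∈ exts σ j) :
    coin (⋃ u ∈ S, cyl u) ≤ S.card * (2⁻¹ : ENNReal) ^ (σ.length + j) := by
  refine (measure_biUnion_finset_le _ _).trans ?_
  refine (Finset.sum_le_card_nsmul S _ ((2⁻¹ : ENNReal) ^ (σ.length + j)) ?_).trans ?_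
  · intro u hu
    rw [coin_cyl, (exts_mem.1 (hS u hu)).2]
  · rw [nsmul_eq_mul]

theorem half_pow_mul (a j : ℕ) : (2 : ENNReal) ^ j * (2⁻¹ : ENNReal) ^ (a + j) = (2⁻¹ : ENNReal) ^ a := by
  rw [pow_add, mul_comm ((2⁻¹ : ENNReal) ^ a), ← mul_assoc, ← mul_pow,
    ENNReal.mul_inv_cancel (by simp) (by simp), one_pow, one_mul]

theorem half_pow_ne_zero (a : ℕ) : (2⁻¹ : ENNReal) ^ a ≠ 0 := by
  simp

theorem half_pow_ne_top (a : ℕ) : (2⁻¹ : ENNReal) ^ a ≠ ⊤ := by
  simp

/-- A set of positive outer measure has relative measure more than two thirds in some cylinder. -/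
theorem exists_dense_cyl {X : Set (ℕ → Bool)} (hX : coin X ≠ 0) :
    ∃ σ, 2 * coin (cyl σ) < 3 * coin (X ∩ cyl σ) := by
  classical
  -- an open set of measure less than 3/2 of the measure of `X`
  have hXt : coin X ≠ ⊤ := measure_ne_top _ _
  have hlt : coin X < (3 / 2) * coin X := by
    have h2 : (1 : ENNReal) < 3 / 2 := by
      rw [ENNReal.lt_div_iff_mul_lt (by simp) (by simp)]
      norm_num
    calc coin X = 1 * coin X := (one_mul _).symm
      _ < (3 / 2) * coin X := (ENNReal.mul_lt_mul_iff_left hX hXt).2 h2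
  obtain ⟨O, hXO, hO, hOlt⟩ := X.exists_isOpen_lt_of_lt _ hlt
  have hOlt' : 2 * coin O < 3 * coin X := by
    have h3 : (2 : ENNReal) * ((3 / 2) * coin X) = 3 * coin X := by
      rw [← mul_assoc, ENNReal.mul_div_cancel (by simp) (by simp)]
    rw [← h3]
    exact (ENNReal.mul_lt_mul_iff_right (by simp) (by simp)).2 hOlt
  -- approximate the open set from inside
  let F : ℕ → Finset (List Bool) := fun n => (exts [] n).toFinset.filter fun u => cyl u ⊆ O
  have hF : ∀ n u, u ∈ F n ↔ u.length = n ∧ cyl u ⊆ O := by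
    intro n u
    simp only [F, Finset.mem_filter, List.mem_toFinset, exts_mem, List.nil_prefix, true_and,
      List.length_nil, zero_add]
  let On : ℕ → Set (ℕ → Bool) := fun n => ⋃ u ∈ F n, cyl u
  have hOn : ∀ n α, α ∈ On n ↔ cyl (firstBits α n) ⊆ O := by
    intro n α
    simp only [On, mem_iUnion, exists_prop]
    constructor
    · rintro ⟨u, hu, hα⟩
      obtain ⟨h1, h2⟩ := (hF n u).1 hu
      rw [mem_cyl, h1] at hα
      rw [hα]; exact h2
    · intro h
      exact ⟨firstBits α n, (hF n _).2 ⟨fb_length _ _, h⟩, mem_cyl_fb _ _⟩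
  have hmono : Monotone On := by
    intro m n hmn α hα
    rw [hOn] at hα ⊢
    refine (cyl_anti ?_).trans hα
    rw [← fb_take α hmn]
    exact List.take_prefix _ _
  have hOnO : ∀ n, On n ⊆ O := fun n α hα => (hOn n α).1 hα (mem_cyl_fb α n)
  have hcup : ⋃ n, X ∩ On n = X := by
    ext α
    simp only [mem_iUnion, mem_inter_iff]
    constructor
    · rintro ⟨n, h, _⟩; exact h
    · intro h
      obtain ⟨n, hn⟩ := exists_cyl_subset hO (hXO h)
      exact ⟨n, h, (hOn n α).2 (hn n le_rfl)⟩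
  have hsup : coin X = ⨆ n, coin (X ∩ On n) := by
    conv_lhs => rw [← hcup]
    exact Monotone.measure_iUnion fun m n hmn => inter_subset_inter_right _ (hmono hmn)
  -- some level is dense enough
  obtain ⟨n, hn⟩ : ∃ n, 2 * coin O < 3 * coin (X ∩ On n) := by
    by_contra hcon
    push Not at hcon
    have : 3 * coin X ≤ 2 * coin O := by
      rw [hsup, ENNReal.mul_iSup]
      exact iSup_le hcon
    exact absurd hOlt' (not_lt.2 this)
  by_contra hcon
  push Not at hcon
  have h1 : 3 * coin (X ∩ On n) ≤ 2 * coin (On n) := by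
    have h2 : X ∩ On n ⊆ ⋃ u ∈ F n, X ∩ cyl u := by
      rintro α ⟨ha, hb⟩
      simp only [On, mem_iUnion, exists_prop] at hb
      obtain ⟨u, hu, hb⟩ := hb
      simp only [mem_iUnion, exists_prop]
      exact ⟨u, hu, ha, hb⟩
    have h3 : coin (On n) = ∑ u ∈ F n, coin (cyl u) := by
      refine measure_biUnion_finset ?_ fun u _ => measurableSet_cyl u
      intro u hu v hv huv
      have hu' := ((hF n u).1 hu).1
      have hv' := ((hF n v).1 hv).1
      show Disjoint (cyl u) (cyl v)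
      rw [Set.disjoint_left]
      intro α h4 h5
      rw [mem_cyl] at h4 h5
      apply huv
      rw [← h4, ← h5, hu', hv']
    calc 3 * coin (X ∩ On n) ≤ 3 * ∑ u ∈ F n, coin (X ∩ cyl u) := by
          gcongr
          exact (measure_mono h2).trans (measure_biUnion_finset_le _ _)
      _ = ∑ u ∈ F n, 3 * coin (X ∩ cyl u) := by rw [Finset.mul_sum]
      _ ≤ ∑ u ∈ F n, 2 * coin (cyl u) := Finset.sum_le_sum fun u _ => hcon u
      _ = 2 * coin (On n) := by rw [h3, Finset.mul_sum]
  have h4 : coin (On n) ≤ coin O := measure_mono (hOnO n)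
  exact absurd (hn.trans_le (h1.trans (mul_le_mul_right h4 2))) (lt_irrefl _)

theorem card_lt_of_measure {a j c k : ℕ} (h : (2 : ENNReal) * (2⁻¹ : ENNReal) ^ a <
    c * (k * (2⁻¹ : ENNReal) ^ (a + j))) : 2 * 2 ^ j < c * k := by
  rw [← half_pow_mul a j, ← mul_assoc, ← mul_assoc] at h
  have h1 := (ENNReal.mul_lt_mul_iff_left (half_pow_ne_zero (a + j)) (half_pow_ne_top _)).1 h
  exact_mod_cast h1

/-- Properties of sets of positive measure which are used in the zero-one law. -/
theorem positive_package {X : Set (ℕ → Bool)} (hX : coin X ≠ 0) : ∃ σ,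
    (∀ (j : ℕ) (S : Finset (List Bool)), (∀ u ∈ S, u ∈ exts σ j) → 2 ^ j < 2 * S.card →
      ∃ u ∈ S, (X ∩ cyl u).Nonempty) ∧
    (∀ W : ℕ → Set (ℕ → Bool), X ⊆ ⋃ i, W i → ∃ m, ∀ (j : ℕ) (S : Finset (List Bool)),
      (∀ u ∈ exts σ j, (∃ i < m, (W i ∩ cyl u).Nonempty) → u ∈ S) →
      (∀ u ∈ S, u ∈ exts σ j) → 2 ^ j < 2 * S.card) := by
  classical
  obtain ⟨σ, hσ⟩ := exists_dense_cyl hX
  refine ⟨σ, ?_, ?_⟩
  · intro j S hS hcard
    by_contra hcon
    push Not at hcon
    have h1 : X ∩ cyl σ ⊆ ⋃ u ∈ (exts σ j).toFinset \ S, cyl u := by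
      rintro α ⟨ha, hb⟩
      rw [cyl_eq_exts σ j] at hb
      simp only [mem_iUnion, exists_prop] at hb ⊢
      obtain ⟨u, hu, hb⟩ := hb
      refine ⟨u, Finset.mem_sdiff.2 ⟨hu, fun hS' => ?_⟩, hb⟩
      have := hcon u hS'
      have h2 : α ∈ X ∩ cyl u := ⟨ha, hb⟩
      rw [this] at h2
      exact h2
    have h2 := (measure_mono h1).trans (coin_biUnion_le σ j _ (fun u hu =>
      List.mem_toFinset.1 (Finset.mem_sdiff.1 hu).1))
    have h3 : ((exts σ j).toFinset \ S).card = 2 ^ j - S.card := by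
      rw [Finset.card_sdiff_of_subset (fun u hu => List.mem_toFinset.2 (hS u hu)),
        List.toFinset_card_of_nodup (exts_nodup σ j), exts_length]
    rw [h3] at h2
    rw [coin_cyl] at hσ
    have h4 := card_lt_of_measure (a := σ.length) (j := j) (c := 3) (k := 2 ^ j - S.card)
      (hσ.trans_le (by
        rw [Nat.cast_ofNat]
        exact mul_le_mul_right h2 3))
    omega
  · intro W hW
    let V : ℕ → Set (ℕ → Bool) := fun m => ⋃ i ∈ Finset.range m, W i ∩ cyl σ
    have hV : Monotone V := by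
      intro m n hmn α hα
      simp only [V, mem_iUnion, exists_prop, Finset.mem_range] at hα ⊢
      obtain ⟨i, hi, h⟩ := hα
      exact ⟨i, by omega, h⟩
    have hsub : X ∩ cyl σ ⊆ ⋃ m, V m := by
      rintro α ⟨ha, hb⟩
      have := hW ha
      simp only [V, mem_iUnion, exists_prop, Finset.mem_range] at this ⊢
      obtain ⟨i, hi⟩ := this
      exact ⟨i + 1, i, by omega, hi, hb⟩
    have h1 : coin (X ∩ cyl σ) ≤ ⨆ m, coin (V m) := by
      rw [← hV.measure_iUnion]
      exact measure_mono hsub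
    obtain ⟨m, hm⟩ : ∃ m, 2 * coin (cyl σ) < 3 * coin (V m) := by
      by_contra hcon
      push Not at hcon
      have : 3 * coin (X ∩ cyl σ) ≤ 2 * coin (cyl σ) := by
        refine (mul_le_mul_right h1 3).trans ?_
        rw [ENNReal.mul_iSup]
        exact iSup_le hcon
      exact absurd hσ (not_lt.2 this)
    refine ⟨m, fun j S hS hS' => ?_⟩
    have h2 : V m ⊆ ⋃ u ∈ S, cyl u := by
      intro α hα
      simp only [V, mem_iUnion, exists_prop, Finset.mem_range] at hα
      obtain ⟨i, hi, h3, h4⟩ := hα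
      have h5 := h4
      rw [cyl_eq_exts σ j] at h5
      simp only [mem_iUnion, exists_prop, List.mem_toFinset] at h5 ⊢
      obtain ⟨u, hu, h5⟩ := h5
      exact ⟨u, hS u hu ⟨i, hi, α, h3, h5⟩, h5⟩
    have h3 := (measure_mono h2).trans (coin_biUnion_le σ j S hS')
    rw [coin_cyl] at hm
    have h4 := card_lt_of_measure (a := σ.length) (j := j) (c := 3) (k := S.card)
      (hm.trans_le (by
        rw [Nat.cast_ofNat]
        exact mul_le_mul_right h3 3))
    omega

/-! ### Category -/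

/-- Properties of non-meagre sets which are used in the zero-one law. -/
theorem nonmeagre_package {X : Set (ℕ → Bool)} (hX : ¬ IsMeagre X) : ∃ σ,
    (∀ u, σ <+: u → (X ∩ cyl u).Nonempty) ∧
    (∀ W : ℕ → Set (ℕ → Bool), (∀ i, IsClosed (W i)) → X ⊆ ⋃ i, W i →
      ∃ i τ, σ <+: τ ∧ cyl τ ⊆ W i) := by
  classical
  let X' : Set (ℕ → Bool) := {α | α ∈ X ∧ ∀ n, ¬ IsMeagre (X ∩ cyl (firstBits α n))}
  have h1 : ¬ IsMeagre X' := by
    intro h
    apply hX
    have h2 : IsMeagre (⋃ u : {u : List Bool // IsMeagre (X ∩ cyl u)}, X ∩ cyl u.1) :=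
      isMeagre_iUnion fun u => u.2
    refine (h.union h2).mono ?_
    intro α hα
    by_cases h3 : ∀ n, ¬ IsMeagre (X ∩ cyl (firstBits α n))
    · exact Or.inl ⟨hα, h3⟩
    · push Not at h3
      obtain ⟨n, hn⟩ := h3
      refine Or.inr (mem_iUnion.2 ⟨⟨firstBits α n, hn⟩, hα, mem_cyl_fb _ _⟩)
  have h2 : (interior (closure X')).Nonempty := by
    rw [nonempty_iff_ne_empty]
    intro h
    exact h1 (IsNowhereDense.isMeagre h)
  obtain ⟨α, hα⟩ := h2
  obtain ⟨n, hn⟩ := exists_cyl_subset isOpen_interior hα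
  have hkey : ∀ u, firstBits α n <+: u → ¬ IsMeagre (X ∩ cyl u) := by
    intro u hu
    have h3 : (closure X' ∩ cyl u).Nonempty := by
      obtain ⟨β, hβ⟩ : (cyl u).Nonempty := ⟨fun i => u.getD i false, by
        rw [cyl_eq_biInter]
        simp⟩
      exact ⟨β, interior_subset (hn n le_rfl (cyl_anti hu hβ)), hβ⟩
    obtain ⟨β, hβ1, hβ2⟩ := h3
    obtain ⟨γ, hγ1, hγ2⟩ := mem_closure_iff.1 hβ1 (cyl u) (isClopen_cyl u).isOpen hβ2
    have h4 := hγ2.2 u.length
    rw [mem_cyl.1 hγ1] at h4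
    exact h4
  refine ⟨firstBits α n, fun u hu => ?_, ?_⟩
  · exact nonempty_of_not_isMeagre (hkey u hu)
  · intro W hW hXW
    have h3 : ∃ i, ¬ IsMeagre (W i ∩ cyl (firstBits α n)) := by
      by_contra hcon
      push Not at hcon
      refine hkey _ List.prefix_rfl ((isMeagre_iUnion hcon).mono ?_)
      rintro β ⟨hβ, hβ'⟩
      obtain ⟨i, hi⟩ := mem_iUnion.1 (hXW hβ)
      exact mem_iUnion.2 ⟨i, hi, hβ'⟩
    obtain ⟨i, hi⟩ := h3
    have hcl : IsClosed (W i ∩ cyl (firstBits α n)) := (hW i).inter (isClopen_cyl _).isClosed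
    have h4 : (interior (W i ∩ cyl (firstBits α n))).Nonempty := by
      rw [nonempty_iff_ne_empty]
      intro h
      apply hi
      apply IsNowhereDense.isMeagre
      show interior (closure _) = ∅
      rw [hcl.closure_eq, h]
    obtain ⟨β, hβ⟩ := h4
    obtain ⟨m, hm⟩ := exists_cyl_subset isOpen_interior hβ
    refine ⟨i, firstBits β (max m n), ?_, ?_⟩
    · have h5 := (interior_subset hβ).2
      exact prefix_of_cyl h5 (by rw [fb_length]; exact le_max_right _ _)
    · intro γ hγ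
      exact (interior_subset (hm _ (le_max_left _ _) hγ)).1

end Pool.Agent.Lib.MP_f0c157_lc
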