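import Pool.Agent.Lib.MP_f0c157_lc.Tools
import Pool.Agent.Lib.MP_f0c157_lc.Cantor

/-!
# MP_f0c157_lc: enumerating the extensions of a word in polynomial time
-/

set_option autoImplicit false

namespace Pool.Agent.Lib.MP_f0c157_lc

open Pool.Agent.PolyTime Pool.Agent.Lib.MP_d5150c_lc N487b59b3 N68a2faeb N793a5b8e

theorem size_bits_le (u : List Bool) : size u ≤ 4 * u.length + 1 := by
  induction u with
  | nil => simp
  | cons b u ih =>
    have := size_bool b
    rw [size_list_cons, List.length_cons]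
    omega

theorem size_exts (σ : List Bool) (j : ℕ) :
    size (exts σ j) ≤ 1 + 2 ^ j * (4 * (σ.length + 2 ^ j) + 2) := by
  have h := size_list_le (l := exts σ j) (B := 4 * (σ.length + 2 ^ j) + 1) (by
    intro u hu
    have h1 := (exts_mem.1 hu).2
    have h2 : j < 2 ^ j := Nat.lt_two_pow_self
    refine (size_bits_le u).trans ?_
    omega)
  rw [exts_length] at h
  refine h.trans (le_of_eq ?_)
  ring

theorem poly_ext1 {γ : Type} [Enc γ] {E : γ → List (List Bool)} (hE : PolyFn E) :
    PolyFn (fun c => ext1 (E c)) := by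
  refine PolyFn.flatMap (f := fun (_ : γ) (u : List Bool) => [u ++ [false], u ++ [true]]) ?_ hE
  exact PolyFn.cons (PolyFn.append PolyFn.snd (PolyFn.const [false])) (PolyFn.cons
    (PolyFn.append PolyFn.snd (PolyFn.const [true])) (PolyFn.const []))

theorem pb_exts (σ : List Bool) {q : ℕ → ℕ} (hq : PB q) :
    PB fun n => 1 + q n * (4 * (σ.length + q n) + 2) :=
  (PB.const 1).add (hq.mul (((PB.const 4).mul ((PB.const _).add hq)).add (PB.const 2)))

/-- all extensions by a polynomially bounded number of possibilities -/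
theorem poly_exts {γ : Type} [Enc γ] (σ : List Bool) {j : γ → ℕ} (hj : PolyFn j)
    (hb : ∃ q, PB q ∧ ∀ c, 2 ^ j c ≤ q (size c)) : PolyFn (fun c => exts σ (j c)) := by
  obtain ⟨q, hq, hqb⟩ := hb
  refine PolyFn.iterate (γ := γ) (step := fun _ E => ext1 E) (init := fun _ => [σ]) (cnt := j)
    (poly_ext1 PolyFn.snd) (PolyFn.const _) hj ⟨_, pb_exts σ hq, ?_⟩
  intro c i hi
  refine (size_exts σ i).trans ?_
  have h1 : 2 ^ i ≤ q (size c) := (Nat.pow_le_pow_right (by omega) hi).trans (hqb c)
  have h2 : 2 ^ i * (4 * (σ.length + 2 ^ i) + 2) ≤ q (size c) * (4 * (σ.length + q (size c)) + 2) :=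
    Nat.mul_le_mul h1 (by omega)
  omega

/-! ### Capped enumeration -/

/-- extend as long as there are fewer than `cap` words -/
def extc (cap : ℕ) (E : List (List Bool)) : List (List Bool) :=
  if E.length < cap then ext1 E else E

/-- the capped enumeration -/
def enumc (σ : List Bool) (cap : ℕ) : List (List Bool) := (extc cap)^[cap] [σ]

theorem extc_iter (σ : List Bool) (cap : ℕ) : ∀ n, ∃ i, (extc cap)^[n] [σ] = exts σ i ∧
    2 ^ i ≤ 2 * cap + 1
  | 0 => ⟨0, rfl, by simp⟩
  | n + 1 => by
    obtain ⟨i, h1, h2⟩ := extc_iter σ cap n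
    rw [Function.iterate_succ_apply', h1]
    unfold extc
    rw [exts_length]
    split_ifs with h
    · exact ⟨i + 1, (exts_succ σ i).symm, by rw [pow_succ]; omega⟩
    · exact ⟨i, rfl, h2⟩

theorem enumc_exists (σ : List Bool) (cap : ℕ) : ∃ i, enumc σ cap = exts σ i := by
  obtain ⟨i, h, _⟩ := extc_iter σ cap cap
  exact ⟨i, h⟩

theorem enumc_pow (σ : List Bool) (j : ℕ) : enumc σ (2 ^ j) = exts σ j := by
  have h1 : ∀ n, n ≤ j → (extc (2 ^ j))^[n] [σ] = exts σ n := by
    intro n
    induction n with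
    | zero => intro _; rfl
    | succ n ih =>
      intro hn
      rw [Function.iterate_succ_apply', ih (by omega)]
      unfold extc
      rw [exts_length, if_pos (Nat.pow_lt_pow_right (by omega) (by omega)), exts_succ]
  have h2 : ∀ n, (extc (2 ^ j))^[n] (exts σ j) = exts σ j := by
    intro n
    induction n with
    | zero => rfl
    | succ n ih =>
      rw [Function.iterate_succ_apply', ih]
      unfold extc
      rw [exts_length, if_neg (lt_irrefl _)]
  unfold enumc
  have h3 : 2 ^ j = (2 ^ j - j) + j := by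
    have : j < 2 ^ j := Nat.lt_two_pow_self
    omega
  have h4 : (extc (2 ^ j))^[2 ^ j] [σ] = (extc (2 ^ j))^[(2 ^ j - j) + j] [σ] :=
    congrArg (fun n => (extc (2 ^ j))^[n] [σ]) h3
  rw [h4, Function.iterate_add_apply, h1 j le_rfl, h2]

theorem poly_enumc {γ : Type} [Enc γ] (σ : List Bool) {n : γ → ℕ} (hn : PolyFn n) :
    PolyFn (fun c => enumc σ (n c)) := by
  obtain ⟨q, hq, hqb⟩ := hn.size_le
  refine PolyFn.iterate (γ := γ) (step := fun c E => extc (n c) E) (init := fun _ => [σ])
    (cnt := n) ?_ (PolyFn.const _) hn ⟨_, pb_exts σ hq, ?_⟩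
  · unfold extc
    exact PolyFn.ite (PolyFn.decide_lt (PolyFn.length PolyFn.snd) (hn.comp PolyFn.fst))
      (poly_ext1 PolyFn.snd) PolyFn.snd
  · intro c i _
    obtain ⟨i', h1, h2⟩ := extc_iter σ (n c) i
    have h3 := hqb c
    rw [size_nat] at h3
    have h4 : 2 ^ i' ≤ q (size c) := h2.trans h3
    have h5 : 2 ^ i' * (4 * (σ.length + 2 ^ i') + 2) ≤
        q (size c) * (4 * (σ.length + q (size c)) + 2) := Nat.mul_le_mul h4 (by omega)
    show size ((extc (n c))^[i] [σ]) ≤ _
    rw [h1]
    refine (size_exts σ i').trans ?_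
    omega

end Pool.Agent.Lib.MP_f0c157_lc
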