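import Pool.Agent.Lib.MP_f0c157_lc.Sparse

/-!
# MP_f0c157_lc: enumeration of words, finite patches, triples
-/

set_option autoImplicit false

namespace Pool.Agent.Lib.MP_f0c157_lc

open Pool.Agent.PolyTime Pool.Agent.Lib.MP_d5150c_lc N487b59b3 N68a2faeb N793a5b8e Filter

/-! ### The successor of a word -/

/-- the successor of a word in the enumeration of all words -/
def inc : List Bool → List Bool
  | [] => [false]
  | false :: l => true :: l
  | true :: l => false :: inc l

/-- the number of a word -/
def wnum : List Bool → ℕ
  | [] => 0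
  | b :: l => (if b then 2 else 1) + 2 * wnum l

theorem wnum_inc : ∀ l, wnum (inc l) = wnum l + 1
  | [] => rfl
  | false :: l => by simp [inc, wnum]; omega
  | true :: l => by simp [inc, wnum, wnum_inc l]; omega

theorem wnum_inj : ∀ {l m : List Bool}, wnum l = wnum m → l = m
  | [], [], _ => rfl
  | [], b :: m, h => by cases b <;> simp [wnum] at h <;> omega
  | b :: l, [], h => by cases b <;> simp [wnum] at h
  | b :: l, c :: m, h => by
    have h1 : b = c ∧ wnum l = wnum m := by
      cases b <;> cases c <;> simp [wnum] at h ⊢ <;> omega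
    rw [h1.1, wnum_inj h1.2]

theorem wnum_iter (n : ℕ) : wnum (inc^[n] []) = n := by
  induction n with
  | zero => rfl
  | succ n ih => rw [Function.iterate_succ_apply', wnum_inc, ih]

theorem inc_iter_wnum (l : List Bool) : inc^[wnum l] [] = l := wnum_inj (wnum_iter _)

/-- one step of the computation of the successor -/
def cst (s : Bool × List Bool) (b : Bool) : Bool × List Bool := (s.1 && b, (xor s.1 b) :: s.2)

theorem foldl_cst_false : ∀ (l acc : List Bool),
    l.foldl cst (false, acc) = (false, l.reverse ++ acc)
  | [], acc => rfl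
  | b :: l, acc => by
    rw [List.foldl_cons]
    show l.foldl cst (false && b, (xor false b) :: acc) = _
    rw [Bool.false_and, Bool.false_xor, foldl_cst_false l]
    simp

theorem foldl_cst_true : ∀ (l acc : List Bool),
    (if (l.foldl cst (true, acc)).1 = true then false :: (l.foldl cst (true, acc)).2 else
      (l.foldl cst (true, acc)).2) = (inc l).reverse ++ acc
  | [], acc => rfl
  | false :: l, acc => by
    rw [List.foldl_cons]
    have h : cst (true, acc) false = (false, true :: acc) := rfl
    rw [h, foldl_cst_false]
    simp [inc]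
  | true :: l, acc => by
    rw [List.foldl_cons]
    have h : cst (true, acc) true = (true, false :: acc) := rfl
    rw [h, foldl_cst_true l]
    simp [inc]

theorem size_cst (s : Bool × List Bool) (b : Bool) : size (cst s b) ≤ size s + 8 := by
  obtain ⟨c, l⟩ := s
  have h1 := size_bool (c && b)
  have h2 := size_bool (xor c b)
  have h3 : 1 ≤ size c := size_pos c
  show size (c && b, (xor c b) :: l) ≤ _
  simp only [size_prod, size_list_cons]
  omega

theorem PolyFn.xor {γ : Type} [Enc γ] {a b : γ → Bool} (ha : PolyFn a) (hb : PolyFn b) :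
    PolyFn (fun c => Bool.xor (a c) (b c)) :=
  (PolyFn.cond ha (PolyFn.not hb) hb).of_eq fun c => by cases a c <;> simp

theorem poly_inc {γ : Type} [Enc γ] {l : γ → List Bool} (hl : PolyFn l) :
    PolyFn (fun c => inc (l c)) := by
  have h0 : PolyFn (fun p : (Bool × List Bool) × Bool => cst p.1 p.2) := by
    have h1 : PolyFn (fun p : (Bool × List Bool) × Bool => p.1.1) := PolyFn.fst.comp PolyFn.fst
    have h2 : PolyFn (fun p : (Bool × List Bool) × Bool => p.1.2) := PolyFn.snd.comp PolyFn.fst
    exact (PolyFn.and h1 PolyFn.snd).pair (PolyFn.cons (PolyFn.xor h1 PolyFn.snd) h2)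
  have h := poly_foldl_bits (true, []) h0 size_cst hl
  have h1 : PolyFn (fun c => ((l c).foldl cst (true, [])).1) := PolyFn.fst.comp h
  have h2 : PolyFn (fun c => ((l c).foldl cst (true, [])).2) := PolyFn.snd.comp h
  refine (PolyFn.reverse (PolyFn.ite (p := fun c => ((l c).foldl cst (true, [])).1 = true)
    (h1.of_eq fun c => by rw [Bool.decide_eq_true]) (PolyFn.cons (PolyFn.const false) h2)
    h2)).of_eq ?_
  intro c
  rw [foldl_cst_true]
  simp

theorem inc_length (l : List Bool) : (inc l).length ≤ l.length + 1 := by
  induction l with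
  | nil => simp [inc]
  | cons b l ih => cases b <;> simp [inc] <;> omega

/-! ### Finite patches -/

theorem poly_patch {h : List Bool → List Bool} (hh : PolyFn h) (T : List Bool → List Bool) :
    ∀ l : List (List Bool), PolyFn (fun w => if w ∈ l then T w else h w)
  | [] => hh.of_eq fun w => by simp
  | a :: l => by
    have h1 : PolyFn (fun w : List Bool => decide (w = a)) :=
      PolyFn.decide_eq PolyFn.id (PolyFn.const a)
    have h2 := PolyFn.ite h1 (PolyFn.const (T a)) (poly_patch hh T l)
    refine h2.of_eq fun w => ?_
    by_cases hw : w = a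
    · subst hw; simp
    · simp [hw]

/-- all words of length less than `N` -/
def shorts (N : ℕ) : List (List Bool) := (List.range N).flatMap fun i => exts [] i

theorem mem_shorts {N : ℕ} {w : List Bool} : w ∈ shorts N ↔ w.length < N := by
  unfold shorts
  rw [List.mem_flatMap]
  constructor
  · rintro ⟨i, hi, hw⟩
    rw [List.mem_range] at hi
    rw [(exts_mem.1 hw).2]
    simpa using hi
  · intro h
    exact ⟨w.length, List.mem_range.2 h, exts_mem.2 ⟨List.nil_prefix, by simp⟩⟩

/-! ### Triples -/

/-- the encoding of a triple -/
def encP3 (p : List Bool × (List Bool × List Bool)) : List Bool :=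
  delimit (encL p.1) ++ encP p.2

theorem bitEncode_triple (p : List Bool × (List Bool × List Bool)) : bitEncode p = encP3 p := by
  show delimit (bitEncode p.1) ++ bitEncode p.2 = _
  rw [bitEncode_list, bitEncode_pair]
  rfl

/-- decode a triple -/
def decP3 (l : List Bool) : List Bool × (List Bool × List Bool) :=
  (decL (l.foldl pstep (0, [], [])).2.1.reverse, decP (l.foldl pstep (0, [], [])).2.2.reverse)

theorem decP3_encP3 (p : List Bool × (List Bool × List Bool)) : decP3 (encP3 p) = p := by
  unfold decP3 encP3
  rw [List.foldl_append, foldl_pstep_delimit, foldl_pstep_two]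
  simp only [List.append_nil, List.reverse_reverse, decL_encL, decP_encP]

theorem poly_decP3 : PolyFn decP3 := by
  have h := poly_foldl_bits (0, [], []) (poly_pstep PolyFn.fst PolyFn.snd) size_pstep
    (PolyFn.id (α := List Bool))
  have h2 := PolyFn.snd.comp h
  exact (poly_decL (PolyFn.reverse (PolyFn.fst.comp h2))).pair
    (poly_decP (PolyFn.reverse (PolyFn.snd.comp h2)))

theorem polyFn_of_isPolyTime₃ {R : List Bool × (List Bool × List Bool) → Bool}
    (h : IsPolyTime R) : PolyFn R := by
  obtain ⟨F, hF, hFR⟩ := exists_polyFn h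
  have h0 : PolyFn (fun p : List Bool × (List Bool × List Bool) => encP (p.2.1, p.2.2)) :=
    poly_encP (PolyFn.fst.comp PolyFn.snd) (PolyFn.snd.comp PolyFn.snd)
  have h0' : PolyFn (fun p : List Bool × (List Bool × List Bool) => encP3 p) :=
    PolyFn.append (poly_delimit (poly_encL PolyFn.fst)) h0
  have h1 : PolyFn (fun p : List Bool × (List Bool × List Bool) => (F (encP3 p)).headD false) :=
    PolyFn.headD (hF.comp h0') (PolyFn.const false)
  refine h1.of_eq ?_
  intro p
  have := hFR p
  rw [bitEncode_triple] at this
  rw [this]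
  rfl

theorem isPolyTime_of_polyFn₃ {R : List Bool × (List Bool × List Bool) → Bool} (h : PolyFn R) :
    IsPolyTime R := by
  have h1 : PolyFn (fun l : List Bool => R (decP3 l)) := h.comp poly_decP3
  refine PolyFn.toTM2 h1 (bitEncode : List Bool × (List Bool × List Bool) → List Bool) R ?_
  intro p
  show R (decP3 (bitEncode p)) = R p
  rw [bitEncode_triple, decP3_encP3]

end Pool.Agent.Lib.MP_f0c157_lc
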