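import Pool.Agent.Lib.MP_f0c157_lc.Base

/-!
# MP_f0c157_lc: further polynomial-time functions
-/

set_option autoImplicit false

namespace Pool.Agent.Lib.MP_f0c157_lc

open Pool.Agent.PolyTime Pool.Agent.Lib.MP_d5150c_lc N487b59b3 N68a2faeb N793a5b8e

/-! ### The code of a tree as a list of bits -/

/-- one step of the traversal of a tree -/
def tstep (s : List T × List Bool) : List T × List Bool :=
  match s.1 with
  | [] => s
  | t :: r => if isNode t = true then (left t :: right t :: r, true :: s.2) else (r, false :: s.2)

theorem tstep_nil (acc : List Bool) : tstep ([], acc) = ([], acc) := rfl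

theorem tstep_iter_nil (acc : List Bool) : ∀ n, tstep^[n] ([], acc) = ([], acc)
  | 0 => rfl
  | n + 1 => by rw [Function.iterate_succ_apply, tstep_nil, tstep_iter_nil acc n]

theorem tstep_iter : ∀ (t : T) (r : List T) (acc : List Bool),
    tstep^[tsize t] (t :: r, acc) = (r, (code t).reverse ++ acc)
  | .nil, r, acc => rfl
  | .node a b, r, acc => by
    have h : tsize (.node a b) = tsize b + tsize a + 1 := by rw [tsize_node]; omega
    rw [h, Function.iterate_succ_apply, Function.iterate_add_apply]
    have h1 : tstep (T.node a b :: r, acc) = (a :: b :: r, true :: acc) := rfl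
    rw [h1, tstep_iter a, tstep_iter b]
    simp [code]

theorem size_tstep (s : List T × List Bool) : size (tstep s) ≤ size s + 4 := by
  obtain ⟨l, acc⟩ := s
  cases l with
  | nil => exact Nat.le_add_right _ _
  | cons t r =>
    cases t with
    | nil =>
      show size (r, false :: acc) ≤ _
      simp only [size_prod, size_list_cons, size_false]
      omega
    | node a b =>
      show size (a :: b :: r, true :: acc) ≤ _
      simp only [size_prod, size_list_cons, size_true, size_T, tsize_node]
      omega

theorem poly_tstep : PolyFn tstep := by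
  refine PolyFn.listCase (l := fun s : List T × List Bool => s.1) (f := fun s => s)
    (g := fun s t r => if isNode t = true then (left t :: right t :: r, true :: s.2)
      else (r, false :: s.2)) PolyFn.fst PolyFn.id ?_ ?_ ?_
  · have h0 : PolyFn (fun p : (List T × List Bool) × T × List T => p.1.2) :=
      PolyFn.snd.comp PolyFn.fst
    have h1 : PolyFn (fun p : (List T × List Bool) × T × List T => p.2.1) :=
      PolyFn.fst.comp PolyFn.snd
    have h2 : PolyFn (fun p : (List T × List Bool) × T × List T => p.2.2) :=
      PolyFn.snd.comp PolyFn.snd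
    refine PolyFn.ite (((poly_isNode).comp h1).of_eq fun c => by simp) ?_ ?_
    · exact (PolyFn.cons (left_poly h1) (PolyFn.cons (right_poly h1) h2)).pair
        (PolyFn.cons (PolyFn.const true) h0)
    · exact h2.pair (PolyFn.cons (PolyFn.const false) h0)
  · rintro ⟨l, acc⟩ h
    change l = [] at h
    subst h; rfl
  · rintro ⟨l, acc⟩ t r h
    change l = t :: r at h
    subst h; rfl

theorem size_tstep_iter (s : List T × List Bool) : ∀ i, size (tstep^[i] s) ≤ size s + 4 * i
  | 0 => le_rfl
  | i + 1 => by
    rw [Function.iterate_succ_apply']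
    have := size_tstep_iter s i
    have := size_tstep (tstep^[i] s)
    omega

theorem poly_code : PolyFn code := by
  have h := PolyFn.iter (γ := T) (init := fun t : T => ([t], ([] : List Bool))) poly_tstep
    ((PolyFn.cons PolyFn.id (PolyFn.const [])).pair (PolyFn.const []))
    ⟨fun n => (n + 4) + 4 * (n + 4),
      (PB.id.add (PB.const 4)).add ((PB.const 4).mul (PB.id.add (PB.const 4))), fun t i hi => by
      have h1 := size_tstep_iter ([t], ([] : List Bool)) i
      simp only [size_prod, size_list_cons, size_list_nil] at h1 hi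
      beta_reduce
      omega⟩
  refine (PolyFn.reverse (PolyFn.snd.comp h)).of_eq ?_
  intro t
  have h1 : size ([t], ([] : List Bool)) = 4 + tsize t := by
    simp only [size_prod, size_list_cons, size_list_nil, size_T]
    omega
  rw [h1, Function.iterate_add_apply, tstep_iter, tstep_iter_nil]
  simp

theorem poly_bits {γ α : Type} [Enc γ] [Enc α] {a : γ → α} (ha : PolyFn a) :
    PolyFn (fun c => bits (a c)) :=
  poly_code.comp ha.toT

/-! ### Capped powers -/

/-- `b ^ k`, truncated at `cap` -/
def cpow (cap b k : ℕ) : ℕ := (fun x => min (x * b) cap)^[k] (min 1 cap)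

theorem cpow_eq (cap b : ℕ) : ∀ k, cpow cap b k = min (b ^ k) cap
  | 0 => by simp [cpow]
  | k + 1 => by
    have ih := cpow_eq cap b k
    unfold cpow at ih ⊢
    rw [Function.iterate_succ_apply', ih]
    rcases Nat.eq_zero_or_pos b with rfl | hb
    · simp
    · rcases le_total (b ^ k) cap with h | h
      · rw [min_eq_left h, pow_succ]
      · rw [min_eq_right h]
        have h1 : cap ≤ cap * b := Nat.le_mul_of_pos_right _ hb
        have h2 : b ^ k ≤ b ^ (k + 1) := Nat.pow_le_pow_right hb (by omega)
        rw [min_eq_right h1, min_eq_right (h.trans h2)]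

theorem poly_cpow {γ : Type} [Enc γ] {cap b k : γ → ℕ} (hc : PolyFn cap) (hb : PolyFn b)
    (hk : PolyFn k) : PolyFn (fun c => cpow (cap c) (b c) (k c)) := by
  obtain ⟨q, hq, hqs⟩ := hc.size_le
  refine PolyFn.iterate (γ := γ) (α := ℕ) (step := fun c x => min (x * b c) (cap c))
    (init := fun c => min 1 (cap c)) (cnt := k) ?_ ?_ hk ⟨q, hq, ?_⟩
  · exact PolyFn.min (PolyFn.mul PolyFn.snd (hb.comp PolyFn.fst)) (hc.comp PolyFn.fst)
  · exact PolyFn.min (PolyFn.const 1) hc
  · intro c i _
    have h1 : (fun x => min (x * b c) (cap c))^[i] (min 1 (cap c)) ≤ cap c := by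
      have := cpow_eq (cap c) (b c) i
      unfold cpow at this
      rw [this]
      exact min_le_right _ _
    have h2 := hqs c
    simp only [size_nat] at h2 ⊢
    omega

/-- the test `b ^ k + k ≤ t` -/
def clock (b k t : ℕ) : Bool := decide (cpow (t + 1) b k + k ≤ t)

theorem clock_iff (b k t : ℕ) : clock b k t = true ↔ b ^ k + k ≤ t := by
  unfold clock
  rw [decide_eq_true_iff, cpow_eq]
  omega

theorem poly_clock {γ : Type} [Enc γ] {b k t : γ → ℕ} (hb : PolyFn b)
    (hk : PolyFn k) (ht : PolyFn t) : PolyFn (fun c => clock (b c) (k c) (t c)) :=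
  PolyFn.decide_le (PolyFn.add (poly_cpow ht.succ hb hk) hk) ht

end Pool.Agent.Lib.MP_f0c157_lc
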