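import Pool.Agent.Lib.MP_f0c157_lc.Enum
import Pool.Agent.Lib.MP_f0c157_lc.Density

/-!
# MP_f0c157_lc: the zero-one law for advice sequences
-/

set_option autoImplicit false

namespace Pool.Agent.Lib.MP_f0c157_lc

open Pool.Agent.PolyTime Pool.Agent.Lib.MP_d5150c_lc N487b59b3 N68a2faeb N793a5b8e MeasureTheory

theorem map_fst_zip_sublist {A B : Type} : ∀ (l : List A) (m : List B),
    ((l.zip m).map Prod.fst).Sublist l
  | [], m => by simp
  | a :: l, [] => by simp
  | a :: l, b :: m => by
    rw [List.zip_cons_cons, List.map_cons]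
    exact (map_fst_zip_sublist l m).cons_cons a

theorem zip_map_self {A B : Type} (g : A → B) : ∀ l : List A,
    l.zip (l.map g) = l.map fun u => (u, g u)
  | [] => rfl
  | a :: l => by rw [List.map_cons, List.zip_cons_cons, zip_map_self g l, List.map_cons]

/-- an enumeration of all polynomial-time functions -/
theorem exists_enum : ∃ e : ℕ → List Bool → List Bool, (∀ i, IsPolyTime (e i)) ∧
    ∀ h, IsPolyTime h → ∃ i, e i = h := by
  obtain ⟨e, he⟩ := countable_isPolyTime.exists_eq_range ⟨_, isPolyTime_fun PolyFn.id⟩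
  refine ⟨e, fun i => ?_, fun h hh => ?_⟩
  · have : e i ∈ {f : List Bool → List Bool | IsPolyTime f} := by
      rw [he]; exact Set.mem_range_self i
    exact this
  · have : h ∈ Set.range e := by rw [← he]; exact hh
    exact this

/-- the good advice sequences for `f` -/
def Good1 (L : DecisionProblem) (s : ℕ → ℕ) (f : List Bool × List Bool → List Bool) :
    Set (ℕ → Bool) :=
  {α | (∀ y, L y ↔ ∃ w, withAdvice f α s w = y) ∧
    ∀ Q, IsProofSystem L Q → PSimulates (withAdvice f α s) Q}

/-- the advice sequences for which `h` translates `Q` -/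
def Tr (s : ℕ → ℕ) (f : List Bool × List Bool → List Bool) (Q h : List Bool → List Bool) :
    Set (ℕ → Bool) :=
  {α | ∀ w, withAdvice f α s (h w) = Q w}

theorem isOpen_firstBits (n : ℕ) (p : List Bool → Prop) : IsOpen {α | p (firstBits α n)} := by
  rw [isOpen_iff_forall_mem_open]
  intro α hα
  refine ⟨cyl (firstBits α n), ?_, (isClopen_cyl _).isOpen, mem_cyl_fb _ _⟩
  intro β hβ
  rw [mem_cyl, fb_length] at hβ
  show p (firstBits β n)
  rw [hβ]; exact hα

theorem isClosed_Tr (s : ℕ → ℕ) (f : List Bool × List Bool → List Bool)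
    (Q h : List Bool → List Bool) : IsClosed (Tr s f Q h) := by
  have h1 : Tr s f Q h = ⋂ w, {α | withAdvice f α s (h w) = Q w} := by
    ext α; simp [Tr]
  rw [h1]
  refine isClosed_iInter fun w => ?_
  rw [← isOpen_compl_iff]
  exact isOpen_firstBits (s (h w).length) (fun u => ¬ f (u, h w) = Q w)

theorem helpful_eq (L : DecisionProblem) (s : ℕ → ℕ) :
    HelpfulAdvice L s = ⋃ f ∈ {f : List Bool × List Bool → List Bool | IsPolyTime f}, Good1 L s f := by
  ext α
  simp only [HelpfulAdvice, Good1, Set.mem_iUnion, exists_prop]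
  rfl

section

variable {s : ℕ → ℕ} (hs : PolyFn fun w : List Bool => List.replicate (s w.length) true)

include hs in
theorem poly_s {γ : Type} [Enc γ] {v : γ → List Bool} (hv : PolyFn v) :
    PolyFn (fun c => s (v c).length) :=
  (PolyFn.length (hs.comp hv)).of_eq fun c => by simp

/-- an entry of a table is correct -/
def okE (s : ℕ → ℕ) (f : List Bool × List Bool → List Bool) (τ u v : List Bool) : Bool :=
  decide (s v.length ≤ u.length) && decide (f (u.take (s v.length), v) = τ)

include hs in
theorem poly_okE {f : List Bool × List Bool → List Bool} (hf : PolyFn f) {γ : Type} [Enc γ]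
    {τ u v : γ → List Bool} (hτ : PolyFn τ) (hu : PolyFn u) (hv : PolyFn v) :
    PolyFn (fun c => okE s f (τ c) (u c) (v c)) := by
  have h1 := poly_s hs hv
  exact PolyFn.and (PolyFn.decide_le h1 (PolyFn.length hu))
    (PolyFn.decide_eq (hf.comp ((PolyFn.take hu h1).pair hv)) hτ)

/-! ### The majority system -/

/-- the number of correct entries of a table -/
def cnt (s : ℕ → ℕ) (f : List Bool × List Bool → List Bool) (E vs : List (List Bool))
    (τ : List Bool) : ℕ :=
  ((E.zip vs).filter fun p => okE s f τ p.1 p.2).length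

/-- the majority system -/
def majSys (s : ℕ → ℕ) (f : List Bool × List Bool → List Bool) (P : List Bool → List Bool)
    (σ w : List Bool) : List Bool :=
  if w.headD false = true then
    (if (enumc σ (unbits (List Bool × List (List Bool)) w.tail).2.length).length <
        2 * cnt s f (enumc σ (unbits (List Bool × List (List Bool)) w.tail).2.length)
          (unbits (List Bool × List (List Bool)) w.tail).2
          (unbits (List Bool × List (List Bool)) w.tail).1 then
      (unbits (List Bool × List (List Bool)) w.tail).1 else P [])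
  else P w.tail

include hs in
theorem poly_majSys {f : List Bool × List Bool → List Bool} (hf : PolyFn f)
    {P : List Bool → List Bool} (hP : PolyFn P) (σ : List Bool) : PolyFn (majSys s f P σ) := by
  have hw : PolyFn (fun w : List Bool => w.tail) := PolyFn.tail PolyFn.id
  have ha : PolyFn (fun w : List Bool => unbits (List Bool × List (List Bool)) w.tail) :=
    poly_unbits.comp hw
  have hvs : PolyFn (fun w : List Bool => (unbits (List Bool × List (List Bool)) w.tail).2) :=
    PolyFn.snd.comp ha
  have hτ : PolyFn (fun w : List Bool => (unbits (List Bool × List (List Bool)) w.tail).1) :=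
    PolyFn.fst.comp ha
  have hE := poly_enumc σ (PolyFn.length hvs)
  refine PolyFn.ite ((PolyFn.headD PolyFn.id (PolyFn.const false)).of_eq fun c => by simp) ?_
    (hP.comp hw)
  refine PolyFn.ite (PolyFn.decide_lt (PolyFn.length hE) (PolyFn.mul (PolyFn.const 2)
    (PolyFn.length (PolyFn.filter ?_ (PolyFn.zip hE hvs))))) hτ (hP.comp (PolyFn.const []))
  exact poly_okE hs hf (hτ.comp PolyFn.fst) (PolyFn.fst.comp PolyFn.snd)
    (PolyFn.snd.comp PolyFn.snd)

theorem majSys_sound {L : DecisionProblem} {f : List Bool × List Bool → List Bool}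
    {P : List Bool → List Bool} (hPL : ∀ y, L y ↔ ∃ π, P π = y) {σ : List Bool}
    (hσ : ∀ (j : ℕ) (S : Finset (List Bool)), (∀ u ∈ S, u ∈ exts σ j) → 2 ^ j < 2 * S.card →
      ∃ u ∈ S, (Good1 L s f ∩ cyl u).Nonempty) (w : List Bool) : L (majSys s f P σ w) = true := by
  unfold majSys
  split_ifs with h1 h2
  · obtain ⟨j, hj⟩ := enumc_exists σ (unbits (List Bool × List (List Bool)) w.tail).2.length
    rw [hj, exts_length] at h2
    set τ := (unbits (List Bool × List (List Bool)) w.tail).1
    set vs := (unbits (List Bool × List (List Bool)) w.tail).2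
    set F := ((exts σ j).zip vs).filter fun p => okE s f τ p.1 p.2 with hF
    have hsub : (F.map Prod.fst).Sublist (exts σ j) := by
      exact (List.Sublist.map _ List.filter_sublist).trans (map_fst_zip_sublist _ _)
    have hnd : (F.map Prod.fst).Nodup := (exts_nodup σ j).sublist hsub
    obtain ⟨u, hu, α, hα, hαu⟩ := hσ j (F.map Prod.fst).toFinset
      (fun u hu => hsub.subset (List.mem_toFinset.1 hu))
      (by rw [List.toFinset_card_of_nodup hnd, List.length_map]; exact h2)
    rw [List.mem_toFinset, List.mem_map] at hu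
    obtain ⟨⟨u', v⟩, hp, rfl⟩ := hu
    rw [hF, List.mem_filter] at hp
    have hok := hp.2
    change okE s f τ u' v = true at hok
    unfold okE at hok
    rw [Bool.and_eq_true, decide_eq_true_iff, decide_eq_true_iff] at hok
    obtain ⟨h3, h4⟩ := hok
    refine (hα.1 τ).2 ⟨v, ?_⟩
    unfold withAdvice
    change α ∈ cyl u' at hαu
    rw [mem_cyl] at hαu
    rw [← fb_take α h3, hαu]
    exact h4
  · exact (hPL _).2 ⟨_, rfl⟩
  · exact (hPL _).2 ⟨_, rfl⟩

/-! ### The translator -/

/-- the first correct proof among finitely many -/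
def pick (s : ℕ → ℕ) (f : List Bool × List Bool → List Bool) (Q : List Bool → List Bool)
    (e : ℕ → List Bool → List Bool) : ℕ → List Bool → List Bool → List Bool
  | 0, _, _ => []
  | m + 1, w, u => if okE s f (Q w) u (e m w) = true then e m w else pick s f Q e m w u

theorem pick_ok {f : List Bool × List Bool → List Bool} {Q : List Bool → List Bool}
    {e : ℕ → List Bool → List Bool} {w u : List Bool} : ∀ {m i : ℕ}, i < m →
    okE s f (Q w) u (e i w) = true → okE s f (Q w) u (pick s f Q e m w u) = true
  | 0, i, hi, _ => by omega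
  | m + 1, i, hi, h => by
    unfold pick
    split_ifs with h1
    · exact h1
    · rcases Nat.lt_or_ge i m with h2 | h2
      · exact pick_ok h2 h
      · have : i = m := by omega
        subst this
        exact absurd h h1

include hs in
theorem poly_pick {f : List Bool × List Bool → List Bool} (hf : PolyFn f)
    {Q : List Bool → List Bool} (hQ : PolyFn Q) {e : ℕ → List Bool → List Bool}
    (he : ∀ i, PolyFn (e i)) : ∀ m, PolyFn (fun p : List Bool × List Bool => pick s f Q e m p.1 p.2)
  | 0 => PolyFn.const []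
  | m + 1 => by
    have h1 : PolyFn (fun p : List Bool × List Bool => e m p.1) := (he m).comp PolyFn.fst
    unfold pick
    exact PolyFn.ite ((poly_okE hs hf (hQ.comp PolyFn.fst) PolyFn.snd h1).of_eq fun c => by simp)
      h1 (poly_pick hf hQ he m)

/-- the number of advice bits needed -/
def jmax (s : ℕ → ℕ) (e : ℕ → List Bool → List Bool) : ℕ → List Bool → ℕ
  | 0, _ => 0
  | m + 1, w => max (s (e m w).length) (jmax s e m w)

theorem le_jmax {e : ℕ → List Bool → List Bool} {w : List Bool} : ∀ {m i : ℕ}, i < m →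
    s (e i w).length ≤ jmax s e m w
  | 0, i, hi => by omega
  | m + 1, i, hi => by
    unfold jmax
    rcases Nat.lt_or_ge i m with h2 | h2
    · exact (le_jmax h2).trans (le_max_right _ _)
    · have : i = m := by omega
      subst this
      exact le_max_left _ _

include hs in
theorem poly_jmax {e : ℕ → List Bool → List Bool} (he : ∀ i, PolyFn (e i)) :
    ∀ m, PolyFn (jmax s e m)
  | 0 => PolyFn.const 0
  | m + 1 => PolyFn.max (poly_s hs (he m)) (poly_jmax he m)

theorem jmax_bound (hlog : ∃ c, ∀ n, 2 ^ s n ≤ (n + 2) ^ c) {e : ℕ → List Bool → List Bool}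
    (he : ∀ i, PolyFn (e i)) : ∀ m, ∃ q, PB q ∧ ∀ w : List Bool, 2 ^ jmax s e m w ≤ q (size w)
  | 0 => ⟨fun _ => 1, PB.const 1, fun w => le_rfl⟩
  | m + 1 => by
    obtain ⟨c, hc⟩ := hlog
    obtain ⟨q, hq, hqb⟩ := jmax_bound ⟨c, hc⟩ he m
    obtain ⟨g, hg, hgb⟩ := (he m).size_le
    refine ⟨fun n => (g n + 2) ^ c + q n, ((hg.add (PB.const 2)).pow c).add hq, fun w => ?_⟩
    have h1 : 2 ^ s (e m w).length ≤ (g (size w) + 2) ^ c := by
      refine (hc _).trans (Nat.pow_le_pow_left ?_ c)
      have h2 := length_le_size (e m w)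
      have h3 := hgb w
      omega
    have h2 := hqb w
    show 2 ^ max (s (e m w).length) (jmax s e m w) ≤ _
    rcases le_total (s (e m w).length) (jmax s e m w) with h | h
    · rw [max_eq_right h]
      exact h2.trans (Nat.le_add_left _ _)
    · rw [max_eq_left h]
      exact h1.trans (Nat.le_add_right _ _)

/-- the translator into the majority system -/
def trans (s : ℕ → ℕ) (f : List Bool × List Bool → List Bool) (Q : List Bool → List Bool)
    (e : ℕ → List Bool → List Bool) (σ : List Bool) (m : ℕ) (w : List Bool) : List Bool :=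
  true :: bits (Q w, (exts σ (jmax s e m w)).map (pick s f Q e m w))

include hs in
theorem poly_trans (hlog : ∃ c, ∀ n, 2 ^ s n ≤ (n + 2) ^ c)
    {f : List Bool × List Bool → List Bool} (hf : PolyFn f)
    {Q : List Bool → List Bool} (hQ : PolyFn Q) {e : ℕ → List Bool → List Bool}
    (he : ∀ i, PolyFn (e i)) (σ : List Bool) (m : ℕ) : PolyFn (trans s f Q e σ m) :=
  PolyFn.cons (PolyFn.const true) (poly_bits (hQ.pair (PolyFn.map (poly_pick hs hf hQ he m)
    (poly_exts σ (poly_jmax hs he m) (jmax_bound hlog he m)))))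

theorem majSys_trans {f : List Bool × List Bool → List Bool}
    {P : List Bool → List Bool} {σ : List Bool} {Q : List Bool → List Bool}
    {e : ℕ → List Bool → List Bool} {m : ℕ} (hm : ∀ (j : ℕ) (S : Finset (List Bool)),
      (∀ u ∈ exts σ j, (∃ i < m, (Tr s f Q (e i) ∩ cyl u).Nonempty) → u ∈ S) →
      (∀ u ∈ S, u ∈ exts σ j) → 2 ^ j < 2 * S.card) (w : List Bool) :
    majSys s f P σ (trans s f Q e σ m w) = Q w := by
  set j := jmax s e m w with hj
  set g := pick s f Q e m w with hg
  have htr : trans s f Q e σ m w = true :: bits (Q w, (exts σ j).map g) := rfl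
  have hcnt : cnt s f (exts σ j) ((exts σ j).map g) (Q w) =
      ((exts σ j).filter fun u => okE s f (Q w) u (g u)).length := by
    unfold cnt
    rw [zip_map_self, List.filter_map, List.length_map]
    rfl
  have hlen : ((exts σ j).map g).length = 2 ^ j := by rw [List.length_map, exts_length]
  have hen : enumc σ ((exts σ j).map g).length = exts σ j := by rw [hlen, enumc_pow]
  have hbig : (exts σ j).length < 2 * cnt s f (exts σ j) ((exts σ j).map g) (Q w) := by
    rw [hcnt, exts_length]
    have hnd : ((exts σ j).filter fun u => okE s f (Q w) u (g u)).Nodup :=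
      (exts_nodup σ j).filter _
    rw [← List.toFinset_card_of_nodup hnd]
    apply hm
    · intro u hu hex
      obtain ⟨i, hi, α, hα, hαu⟩ := hex
      rw [List.mem_toFinset, List.mem_filter]
      refine ⟨hu, ?_⟩
      show okE s f (Q w) u (g u) = true
      refine pick_ok hi ?_
      unfold okE
      rw [Bool.and_eq_true, decide_eq_true_iff, decide_eq_true_iff]
      have h1 : s (e i w).length ≤ u.length := by
        rw [(exts_mem.1 hu).2]
        have := le_jmax (s := s) (e := e) (w := w) hi
        omega
      refine ⟨h1, ?_⟩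
      have h2 := hα w
      unfold withAdvice at h2
      rw [← fb_take α h1, mem_cyl.1 hαu] at h2
      exact h2
    · intro u hu
      exact (List.mem_filter.1 (List.mem_toFinset.1 hu)).1
  rw [htr]
  unfold majSys
  rw [if_pos (by rfl)]
  have h1 : (true :: bits (Q w, (exts σ j).map g)).tail = bits (Q w, (exts σ j).map g) := rfl
  rw [h1, unbits_bits]
  show (if (enumc σ ((exts σ j).map g).length).length <
    2 * cnt s f (enumc σ ((exts σ j).map g).length) ((exts σ j).map g) (Q w) then Q w else P []) = _
  rw [hen, if_pos hbig]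

include hs in
/-- The measure part. -/
theorem optimal_of_positive {L : DecisionProblem} {P : List Bool → List Bool}
    (hP : IsProofSystem L P) (hlog : ∃ c, ∀ n, 2 ^ s n ≤ (n + 2) ^ c)
    (hX : coin (HelpfulAdvice L s) ≠ 0) : ∃ P, IsPOptimalProofSystem L P := by
  obtain ⟨f, hf, hXf⟩ : ∃ f : List Bool × List Bool → List Bool, IsPolyTime f ∧
      coin (Good1 L s f) ≠ 0 := by
    by_contra hcon
    push Not at hcon
    apply hX
    rw [helpful_eq]
    exact (measure_biUnion_null_iff countable_isPolyTime₂).2 hcon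
  have hf' := polyFn_of_isPolyTime₂ hf
  have hP' := polyFn_of_isPolyTime hP.1
  obtain ⟨σ, hσ1, hσ2⟩ := positive_package hXf
  obtain ⟨e, he, hee⟩ := exists_enum
  refine ⟨majSys s f P σ, ⟨isPolyTime_fun (poly_majSys hs hf' hP' σ), fun y => ⟨fun hy => ?_, ?_⟩⟩,
    fun Q hQ => ?_⟩
  · obtain ⟨x, hx⟩ := (hP.2 y).1 hy
    exact ⟨false :: x, hx⟩
  · rintro ⟨w, rfl⟩
    exact majSys_sound hP.2 hσ1 w
  · obtain ⟨m, hm⟩ := hσ2 (fun i => Tr s f Q (e i)) (by
      intro α hα
      obtain ⟨h, hh, hh'⟩ := hα.2 Q hQ
      obtain ⟨i, rfl⟩ := hee h hh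
      exact Set.mem_iUnion.2 ⟨i, hh'⟩)
    exact ⟨trans s f Q e σ m, isPolyTime_fun (poly_trans hs hlog hf' (polyFn_of_isPolyTime hQ.1)
      (fun i => polyFn_of_isPolyTime (he i)) σ m), majSys_trans hm⟩

/-! ### Category -/

/-- the system whose proofs contain the advice -/
def advSys (s : ℕ → ℕ) (f : List Bool × List Bool → List Bool) (P : List Bool → List Bool)
    (σ w : List Bool) : List Bool :=
  if w.headD false = true then
    (if s (unbits (List Bool × List Bool) w.tail).2.length ≤
        (σ ++ (unbits (List Bool × List Bool) w.tail).1).length then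
      f ((σ ++ (unbits (List Bool × List Bool) w.tail).1).take
        (s (unbits (List Bool × List Bool) w.tail).2.length),
          (unbits (List Bool × List Bool) w.tail).2) else P [])
  else P w.tail

include hs in
theorem poly_advSys {f : List Bool × List Bool → List Bool} (hf : PolyFn f)
    {P : List Bool → List Bool} (hP : PolyFn P) (σ : List Bool) : PolyFn (advSys s f P σ) := by
  have hw : PolyFn (fun w : List Bool => w.tail) := PolyFn.tail PolyFn.id
  have ha : PolyFn (fun w : List Bool => unbits (List Bool × List Bool) w.tail) :=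
    poly_unbits.comp hw
  have hu : PolyFn (fun w : List Bool => σ ++ (unbits (List Bool × List Bool) w.tail).1) :=
    PolyFn.append (PolyFn.const σ) (PolyFn.fst.comp ha)
  have hv : PolyFn (fun w : List Bool => (unbits (List Bool × List Bool) w.tail).2) :=
    PolyFn.snd.comp ha
  have hsv := poly_s hs hv
  refine PolyFn.ite ((PolyFn.headD PolyFn.id (PolyFn.const false)).of_eq fun c => by simp) ?_
    (hP.comp hw)
  exact PolyFn.ite (PolyFn.decide_le hsv (PolyFn.length hu))
    (hf.comp ((PolyFn.take hu hsv).pair hv)) (hP.comp (PolyFn.const []))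

include hs in
/-- The category part. -/
theorem optimal_of_nonmeagre {L : DecisionProblem} {P : List Bool → List Bool}
    (hP : IsProofSystem L P) (hX : ¬ IsMeagre (HelpfulAdvice L s)) :
    ∃ P, IsPOptimalProofSystem L P := by
  obtain ⟨f, hf, hXf⟩ : ∃ f : List Bool × List Bool → List Bool, IsPolyTime f ∧
      ¬ IsMeagre (Good1 L s f) := by
    by_contra hcon
    push Not at hcon
    apply hX
    rw [helpful_eq]
    exact isMeagre_biUnion countable_isPolyTime₂ hcon
  have hf' := polyFn_of_isPolyTime₂ hf
  have hP' := polyFn_of_isPolyTime hP.1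
  obtain ⟨σ, hσ1, hσ2⟩ := nonmeagre_package hXf
  obtain ⟨e, he, hee⟩ := exists_enum
  refine ⟨advSys s f P σ, ⟨isPolyTime_fun (poly_advSys hs hf' hP' σ), fun y => ⟨fun hy => ?_, ?_⟩⟩,
    fun Q hQ => ?_⟩
  · obtain ⟨x, hx⟩ := (hP.2 y).1 hy
    exact ⟨false :: x, hx⟩
  · rintro ⟨w, rfl⟩
    unfold advSys
    split_ifs with h1 h2
    · obtain ⟨α, hα, hαu⟩ := hσ1 (σ ++ (unbits (List Bool × List Bool) w.tail).1)
        (List.prefix_append _ _)
      refine (hα.1 _).2 ⟨(unbits (List Bool × List Bool) w.tail).2, ?_⟩
      unfold withAdvice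
      rw [← fb_take α h2, mem_cyl.1 hαu]
    · exact (hP.2 _).2 ⟨_, rfl⟩
    · exact (hP.2 _).2 ⟨_, rfl⟩
  · obtain ⟨i, τ, hστ, hτ⟩ := hσ2 (fun i => Tr s f Q (e i)) (fun i => isClosed_Tr _ _ _ _) (by
      intro α hα
      obtain ⟨h, hh, hh'⟩ := hα.2 Q hQ
      obtain ⟨i, rfl⟩ := hee h hh
      exact Set.mem_iUnion.2 ⟨i, hh'⟩)
    have hei := polyFn_of_isPolyTime (he i)
    obtain ⟨ρ, rfl⟩ := hστ
    refine ⟨fun w => true :: bits (ρ ++ List.replicate (s (e i w).length) false, e i w),
      isPolyTime_fun ?_, fun w => ?_⟩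
    · exact PolyFn.cons (PolyFn.const true) (poly_bits ((PolyFn.append (PolyFn.const ρ)
        (PolyFn.replicate (poly_s hs hei) (PolyFn.const false))).pair hei))
    · set v := e i w with hv
      set u := ρ ++ List.replicate (s v.length) false with hu
      have hlen : s v.length ≤ (σ ++ u).length := by
        rw [hu]; simp only [List.length_append, List.length_replicate]; omega
      obtain ⟨α, hα⟩ : (cyl (σ ++ u)).Nonempty := ⟨fun i => (σ ++ u).getD i false, by
        rw [cyl_eq_biInter]
        simp⟩
      have hα' : α ∈ Tr s f Q (e i) := by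
        refine hτ (cyl_anti ?_ hα)
        rw [hu, ← List.append_assoc]
        exact List.prefix_append _ _
      have h1 := hα' w
      rw [← hv] at h1
      unfold withAdvice at h1
      rw [← fb_take α hlen, mem_cyl.1 hα] at h1
      show advSys s f P σ (true :: bits (u, v)) = Q w
      unfold advSys
      rw [if_pos (by rfl)]
      have h2 : (true :: bits (u, v)).tail = bits (u, v) := rfl
      rw [h2, unbits_bits, if_pos hlen]
      exact h1

end

/-- with a p-optimal proof system every advice sequence is helpful -/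
theorem helpful_univ {L : DecisionProblem} (s : ℕ → ℕ) (h : ∃ P, IsPOptimalProofSystem L P) :
    HelpfulAdvice L s = Set.univ := by
  obtain ⟨P, hP, hP'⟩ := h
  rw [Set.eq_univ_iff_forall]
  intro α
  exact ⟨fun p => P p.2, isPolyTime_fun₂ ((polyFn_of_isPolyTime hP.1).comp PolyFn.snd), hP.2, hP'⟩

theorem main_zeroOne (L : DecisionProblem) (hL : ∃ P, IsProofSystem L P) (s : ℕ → ℕ)
    (hs : IsPolyTime fun w : List Bool => List.replicate (s w.length) true)
    (hlog : ∃ c, ∀ n, 2 ^ s n ≤ (n + 2) ^ c) :
    ((∃ P, IsPOptimalProofSystem L P) → HelpfulAdvice L s = Set.univ) ∧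
    ((¬ ∃ P, IsPOptimalProofSystem L P) →
      coin (HelpfulAdvice L s) = 0 ∧ IsMeagre (HelpfulAdvice L s)) := by
  have hs' := polyFn_of_isPolyTime hs
  obtain ⟨P, hP⟩ := hL
  refine ⟨helpful_univ s, fun h => ⟨?_, ?_⟩⟩
  · by_contra hcon
    exact h (optimal_of_positive hs' hP hlog hcon)
  · by_contra hcon
    exact h (optimal_of_nonmeagre hs' hP hcon)

end Pool.Agent.Lib.MP_f0c157_lc
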